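import Mathlib

/-! # A partition of the identity with elements of a subspace of small codimension -/

set_option autoImplicit false

namespace Pool.Agent.Zk71.LieA

open Module
open scoped InnerProductSpace

variable {V : Type} [NormedAddCommGroup V] [InnerProductSpace ℝ V] [FiniteDimensional ℝ V]

/-- a family of independent elements of `𝔤` which kill `v` is small -/
theorem small (𝔤 : Submodule ℝ (V →L[ℝ] V)) (r : ℕ) (v : V)
    (hr : r ≤ finrank ℝ (𝔤.map (ContinuousLinearMap.apply ℝ V v).toLinearMap))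
    (h : ℕ) (e : Fin h → 𝔤) (he : LinearIndependent ℝ e)
    (hv : ∀ j, ((e j : 𝔤) : V →L[ℝ] V) v = 0) : r + h ≤ finrank ℝ 𝔤 := by
  obtain ⟨φ, hφ⟩ : ∃ φ : 𝔤 →ₗ[ℝ] V,
    φ = (ContinuousLinearMap.apply ℝ V v).toLinearMap.domRestrict 𝔤 := ⟨_, rfl⟩
  have h1 := LinearMap.finrank_range_add_finrank_ker φ
  have h2 : LinearMap.range φ = 𝔤.map (ContinuousLinearMap.apply ℝ V v).toLinearMap := by
    rw [hφ, LinearMap.range_domRestrict]
  rw [h2] at h1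
  have h3 : h ≤ finrank ℝ (LinearMap.ker φ) := by
    have h4 : ∀ j, e j ∈ LinearMap.ker φ := by
      intro j
      rw [LinearMap.mem_ker, hφ]
      exact hv j
    have h5 : LinearIndependent ℝ (fun j => (⟨e j, h4 j⟩ : LinearMap.ker φ)) := by
      refine LinearIndependent.of_comp (LinearMap.ker φ).subtype ?_
      exact he
    have h6 := h5.fintype_card_le_finrank
    rwa [Fintype.card_fin] at h6
  omega

/-- A2: a partition of the identity with elements of a subspace of small codimension. -/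
theorem A2 (𝔤 : Submodule ℝ (V →L[ℝ] V)) (r : ℕ)
    (hskew : ∀ X ∈ 𝔤, ∀ v w : V, ⟪X v, w⟫_ℝ = -⟪v, X w⟫_ℝ)
    (horb : ∀ v : V, v ≠ 0 →
      r ≤ finrank ℝ (𝔤.map (ContinuousLinearMap.apply ℝ V v).toLinearMap)) :
    ∃ (J : ℕ) (C : ℝ), ∀ 𝔥 : Submodule ℝ (V →L[ℝ] V), 𝔥 ≤ 𝔤 →
      finrank ℝ 𝔤 < finrank ℝ 𝔥 + r →
      ∃ (X : Fin J → Algebra.adjoin ℝ (𝔤 : Set (V →L[ℝ] V)))
        (B : Fin J → Algebra.adjoin ℝ (𝔤 : Set (V →L[ℝ] V))),
        (∀ j, (X j : V →L[ℝ] V) ∈ 𝔥 ∧ ‖X j‖ ≤ 1) ∧ (∀ j, ‖B j‖ ≤ C) ∧ ∑ j, B j * X j = 1 := by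
  classical
  rcases subsingleton_or_nontrivial V with hV | hV
  · refine ⟨0, 0, fun 𝔥 _ _ => ⟨fun _ => 0, fun _ => 0, fun j => j.elim0, fun j => j.elim0, ?_⟩⟩
    apply Subtype.ext
    ext v
    exact Subsingleton.elim _ _
  obtain ⟨g, hg⟩ : ∃ g, g = finrank ℝ 𝔤 := ⟨_, rfl⟩
  obtain ⟨v₀, hv₀⟩ := exists_ne (0 : V)
  have hrg : r ≤ g := by
    refine (horb v₀ hv₀).trans ?_
    rw [hg]
    exact Submodule.finrank_map_le _ _
  obtain ⟨h, hh⟩ : ∃ h, h = g + 1 - r := ⟨_, rfl⟩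
  -- a parametrization of `𝔤`
  have hdim : finrank ℝ (EuclideanSpace ℝ (Fin g)) = finrank ℝ 𝔤 := by
    rw [finrank_euclideanSpace, Fintype.card_fin, hg]
  obtain ⟨L⟩ : Nonempty (EuclideanSpace ℝ (Fin g) ≃ₗ[ℝ] 𝔤) :=
    ⟨LinearEquiv.ofFinrankEq _ _ hdim⟩
  obtain ⟨Lc, hLc⟩ : ∃ Lc : EuclideanSpace ℝ (Fin g) →L[ℝ] (V →L[ℝ] V),
      ∀ x, Lc x = ((L x : 𝔤) : V →L[ℝ] V) :=
    ⟨LinearMap.toContinuousLinearMap (𝔤.subtype ∘ₗ L.toLinearMap), fun x => rfl⟩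
  obtain ⟨D, hD⟩ : ∃ D : ℝ, D = ‖Lc‖ + 1 := ⟨_, rfl⟩
  have hD0 : 0 < D := by rw [hD]; positivity
  have hLD : ∀ x, ‖x‖ = 1 → ‖Lc x‖ ≤ D := by
    intro x hx
    have := Lc.le_opNorm x
    rw [hx, mul_one] at this
    rw [hD]
    linarith
  -- the compact set
  have hcomp : ∃ c : ℝ, 0 < c ∧ ∀ (v : V) (e : Fin h → EuclideanSpace ℝ (Fin g)), ‖v‖ = 1 →
      Orthonormal ℝ e → c ≤ ∑ j, ‖Lc (e j) v‖ ^ 2 := by
    obtain ⟨K, hK⟩ : ∃ K : Set (V × (Fin h → EuclideanSpace ℝ (Fin g))),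
      K = {p | ‖p.1‖ = 1 ∧ Orthonormal ℝ p.2} := ⟨_, rfl⟩
    have hcl : IsClosed K := by
      have e1 : K = {p | ‖p.1‖ = 1} ∩
          ⋂ i : Fin h, ⋂ j : Fin h, {p | ⟪p.2 i, p.2 j⟫_ℝ = if i = j then (1 : ℝ) else 0} := by
        rw [hK]
        ext p
        simp only [Set.mem_setOf_eq, Set.mem_inter_iff, Set.mem_iInter]
        rw [orthonormal_iff_ite]
      rw [e1]
      refine IsClosed.inter (isClosed_eq (by fun_prop) continuous_const) ?_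
      refine isClosed_iInter fun i => isClosed_iInter fun j => isClosed_eq ?_ continuous_const
      fun_prop
    have hbd : Bornology.IsBounded K := by
      refine (Metric.isBounded_closedBall (x := (0 : V × (Fin h → EuclideanSpace ℝ (Fin g))))
        (r := 1)).subset ?_
      intro p hp
      rw [hK] at hp
      rw [mem_closedBall_zero_iff, Prod.norm_def]
      refine max_le hp.1.le ?_
      rw [pi_norm_le_iff_of_nonneg zero_le_one]
      intro j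
      exact (hp.2.1 j).le
    have hKc : IsCompact K := Metric.isCompact_of_isClosed_isBounded hcl hbd
    have hcont : ContinuousOn
        (fun p : V × (Fin h → EuclideanSpace ℝ (Fin g)) => ∑ j, ‖Lc (p.2 j) p.1‖ ^ 2) K := by
      refine Continuous.continuousOn ?_
      refine continuous_finset_sum _ fun j _ => ?_
      refine Continuous.pow (Continuous.norm ?_) 2
      refine Continuous.clm_apply ?_ continuous_fst
      exact Lc.continuous.comp ((continuous_apply j).comp continuous_snd)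
    have hpos : ∀ p ∈ K, (0 : ℝ) < ∑ j, ‖Lc (p.2 j) p.1‖ ^ 2 := by
      intro p hp
      rw [hK] at hp
      obtain ⟨hp1, hp2⟩ := hp
      by_contra hcon
      push Not at hcon
      have h0 : ∀ j, Lc (p.2 j) p.1 = 0 := by
        intro j
        have h3 : ∑ j, ‖Lc (p.2 j) p.1‖ ^ 2 = 0 :=
          le_antisymm hcon (Finset.sum_nonneg fun _ _ => by positivity)
        rw [Finset.sum_eq_zero_iff_of_nonneg (fun _ _ => by positivity)] at h3
        have := h3 j (Finset.mem_univ j)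
        rwa [sq_eq_zero_iff, norm_eq_zero] at this
      have hv : p.1 ≠ 0 := by
        intro hv
        rw [hv, norm_zero] at hp1
        exact zero_ne_one hp1
      have h4 := small 𝔤 r p.1 (horb p.1 hv) h (fun j => L (p.2 j))
        (hp2.linearIndependent.map' L.toLinearMap L.ker) (fun j => by rw [← hLc]; exact h0 j)
      omega
    obtain ⟨c, hc, hcK⟩ := hKc.exists_forall_le' hcont hpos
    refine ⟨c, hc, fun v e hv he => hcK (v, e) ?_⟩
    rw [hK]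
    exact ⟨hv, he⟩
  obtain ⟨c, hc, hcK⟩ := hcomp
  refine ⟨h, D * (1 / c * D), fun 𝔥 h𝔥 hfin => ?_⟩
  -- the orthonormal family
  obtain ⟨W, hW⟩ : ∃ W : Submodule ℝ (EuclideanSpace ℝ (Fin g)),
    W = 𝔥.comap (𝔤.subtype ∘ₗ L.toLinearMap) := ⟨_, rfl⟩
  have hWm : ∀ x ∈ W, Lc x ∈ 𝔥 := by
    intro x hx
    rw [hW] at hx
    rw [hLc]
    exact hx
  have hWd : h ≤ finrank ℝ W := by
    have h1 : 𝔥 ≤ W.map (𝔤.subtype ∘ₗ L.toLinearMap) := by
      intro y hy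
      refine ⟨L.symm ⟨y, h𝔥 hy⟩, ?_, ?_⟩
      · rw [hW]
        show ((L (L.symm ⟨y, h𝔥 hy⟩) : 𝔤) : V →L[ℝ] V) ∈ 𝔥
        rw [L.apply_symm_apply]
        exact hy
      · show ((L (L.symm ⟨y, h𝔥 hy⟩) : 𝔤) : V →L[ℝ] V) = y
        rw [L.apply_symm_apply]
    have h2 := Submodule.finrank_mono h1
    have h3 := Submodule.finrank_map_le (𝔤.subtype ∘ₗ L.toLinearMap) W
    omega
  obtain ⟨b⟩ : Nonempty (OrthonormalBasis (Fin (finrank ℝ W)) ℝ W) := ⟨stdOrthonormalBasis ℝ W⟩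
  obtain ⟨e, he⟩ : ∃ e : Fin h → EuclideanSpace ℝ (Fin g),
    e = fun j => ((b (Fin.castLE hWd j) : W) : EuclideanSpace ℝ (Fin g)) := ⟨_, rfl⟩
  have heo : Orthonormal ℝ e := by
    have h1 := b.orthonormal.comp (Fin.castLE hWd) (Fin.castLE_injective hWd)
    have h2 := h1.comp_linearIsometry W.subtypeₗᵢ
    rw [he]
    exact h2
  have heW : ∀ j, e j ∈ W := by
    intro j
    rw [he]
    exact (b (Fin.castLE hWd j)).2
  have hY𝔥 : ∀ j, Lc (e j) ∈ 𝔥 := fun j => hWm _ (heW j)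
  have hY𝔤 : ∀ j, Lc (e j) ∈ 𝔤 := fun j => h𝔥 (hY𝔥 j)
  obtain ⟨Y, hY⟩ : ∃ Y : Fin h → Algebra.adjoin ℝ (𝔤 : Set (V →L[ℝ] V)),
      ∀ j, ((Y j : _) : V →L[ℝ] V) = Lc (e j) :=
    ⟨fun j => ⟨Lc (e j), Algebra.subset_adjoin (hY𝔤 j)⟩, fun j => rfl⟩
  have hYn : ∀ j, ‖Y j‖ ≤ D := by
    intro j
    have h1 : ‖Y j‖ = ‖Lc (e j)‖ := by rw [← hY j]; rfl
    rw [h1]
    exact hLD _ (heo.1 j)
  obtain ⟨S, hS⟩ : ∃ S : Algebra.adjoin ℝ (𝔤 : Set (V →L[ℝ] V)), S = -∑ j, Y j * Y j := ⟨_, rfl⟩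
  have hScoe : (S : V →L[ℝ] V) = -∑ j, Lc (e j) * Lc (e j) := by
    have h1 : (Algebra.adjoin ℝ (𝔤 : Set (V →L[ℝ] V))).val S = -∑ j, Lc (e j) * Lc (e j) := by
      rw [hS, map_neg, map_sum]
      congr 1
      refine Finset.sum_congr rfl fun j _ => ?_
      rw [map_mul]
      have h2 : (Algebra.adjoin ℝ (𝔤 : Set (V →L[ℝ] V))).val (Y j) = Lc (e j) := hY j
      rw [h2]
    exact h1
  have hSv : ∀ v : V, (S : V →L[ℝ] V) v = -∑ j, Lc (e j) (Lc (e j) v) := by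
    intro v
    rw [hScoe, ContinuousLinearMap.neg_apply, ContinuousLinearMap.sum_apply]
    rfl
  have hSc : ∀ v : V, c * ‖v‖ ^ 2 ≤ ⟪(S : V →L[ℝ] V) v, v⟫_ℝ := by
    intro v
    have h1 : ⟪(S : V →L[ℝ] V) v, v⟫_ℝ = ∑ j, ‖Lc (e j) v‖ ^ 2 := by
      rw [hSv, inner_neg_left, sum_inner, ← Finset.sum_neg_distrib]
      refine Finset.sum_congr rfl fun j _ => ?_
      rw [hskew _ (hY𝔤 j), neg_neg, real_inner_self_eq_norm_sq]
    rw [h1]
    rcases eq_or_ne v 0 with h0 | h0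
    · rw [h0]
      simp
    · have hn : 0 < ‖v‖ := norm_pos_iff.2 h0
      have h2 := hcK (‖v‖⁻¹ • v) e (by rw [norm_smul, norm_inv, norm_norm]; field_simp) heo
      have h3 : ∀ j, ‖Lc (e j) (‖v‖⁻¹ • v)‖ ^ 2 = (‖v‖ ^ 2)⁻¹ * ‖Lc (e j) v‖ ^ 2 := by
        intro j
        rw [ContinuousLinearMap.map_smul, norm_smul, norm_inv, norm_norm, mul_pow, inv_pow]
      rw [Finset.sum_congr rfl fun j _ => h3 j, ← Finset.mul_sum] at h2
      have h4 := mul_le_mul_of_nonneg_right h2 (sq_nonneg ‖v‖)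
      refine h4.trans (le_of_eq ?_)
      field_simp
  have hSinj : ∀ v : V, (S : V →L[ℝ] V) v = 0 → v = 0 := by
    intro v hv
    have h1 := hSc v
    rw [hv, inner_zero_left] at h1
    by_contra h0
    have hn : 0 < ‖v‖ := norm_pos_iff.2 h0
    have : 0 < c * ‖v‖ ^ 2 := by positivity
    linarith
  have hmul : ∀ A : Algebra.adjoin ℝ (𝔤 : Set (V →L[ℝ] V)), S * A = 0 → A = 0 := by
    intro A hA
    apply Subtype.ext
    ext v
    have h1 : (S : V →L[ℝ] V) ((A : V →L[ℝ] V) v) = 0 := by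
      have h2 := congrArg (fun T : Algebra.adjoin ℝ (𝔤 : Set (V →L[ℝ] V)) => (T : V →L[ℝ] V) v) hA
      exact h2
    exact hSinj _ h1
  have hsurj : Function.Surjective (LinearMap.mulLeft ℝ S) := by
    refine LinearMap.injective_iff_surjective.1 ?_
    refine (injective_iff_map_eq_zero _).2 fun A hA => hmul A ?_
    exact hA
  obtain ⟨A, hA⟩ := hsurj 1
  have hSA : S * A = 1 := hA
  have hAS : A * S = 1 := by
    have h1 : S * (A * S - 1) = 0 := by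
      rw [mul_sub, ← mul_assoc, hSA, one_mul, mul_one, sub_self]
    exact sub_eq_zero.1 (hmul _ h1)
  have hAn : ‖A‖ ≤ 1 / c := by
    have h0 : ‖A‖ = ‖(A : V →L[ℝ] V)‖ := rfl
    rw [h0]
    refine ContinuousLinearMap.opNorm_le_bound _ (by positivity) fun v => ?_
    obtain ⟨w, hw⟩ : ∃ w, w = (A : V →L[ℝ] V) v := ⟨_, rfl⟩
    rw [← hw]
    have h1 : (S : V →L[ℝ] V) w = v := by
      rw [hw]
      have h2 := congrArg (fun T : Algebra.adjoin ℝ (𝔤 : Set (V →L[ℝ] V)) => (T : V →L[ℝ] V) v) hSA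
      exact h2
    have h2 := hSc w
    rw [h1] at h2
    have h3 := (real_inner_le_norm v w)
    have h4 : c * ‖w‖ ^ 2 ≤ ‖v‖ * ‖w‖ := h2.trans h3
    rcases (norm_nonneg w).lt_or_eq with h5 | h5
    · have h6 : c * ‖w‖ ≤ ‖v‖ := by
        have : (c * ‖w‖) * ‖w‖ ≤ ‖v‖ * ‖w‖ := by nlinarith
        exact le_of_mul_le_mul_right this h5
      rw [one_div, inv_mul_eq_div, le_div_iff₀ hc]
      linarith
    · rw [← h5]
      positivity
  have hXc : ∀ j, ((D⁻¹ • Y j : Algebra.adjoin ℝ (𝔤 : Set (V →L[ℝ] V))) : V →L[ℝ] V) =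
      D⁻¹ • Lc (e j) := by
    intro j
    rw [← hY j]
    rfl
  have hBc : ∀ j, ((-(D • (A * Y j)) : Algebra.adjoin ℝ (𝔤 : Set (V →L[ℝ] V))) : V →L[ℝ] V) =
      -(D • ((A : V →L[ℝ] V) * Lc (e j))) := by
    intro j
    rw [← hY j]
    rfl
  refine ⟨fun j => D⁻¹ • Y j, fun j => -(D • (A * Y j)), fun j => ⟨?_, ?_⟩, fun j => ?_, ?_⟩
  · show ((D⁻¹ • Y j : Algebra.adjoin ℝ (𝔤 : Set (V →L[ℝ] V))) : V →L[ℝ] V) ∈ 𝔥
    rw [hXc]
    exact 𝔥.smul_mem _ (hY𝔥 j)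
  · show ‖((D⁻¹ • Y j : Algebra.adjoin ℝ (𝔤 : Set (V →L[ℝ] V))) : V →L[ℝ] V)‖ ≤ 1
    rw [hXc, norm_smul, norm_inv, Real.norm_of_nonneg hD0.le, inv_mul_le_iff₀ hD0, mul_one]
    exact hLD _ (heo.1 j)
  · show ‖((-(D • (A * Y j)) : Algebra.adjoin ℝ (𝔤 : Set (V →L[ℝ] V))) : V →L[ℝ] V)‖ ≤ _
    rw [hBc, norm_neg, norm_smul, Real.norm_of_nonneg hD0.le]
    refine mul_le_mul_of_nonneg_left ?_ hD0.le
    refine (norm_mul_le _ _).trans ?_
    exact mul_le_mul hAn (hLD _ (heo.1 j)) (norm_nonneg _) (by positivity)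
  · apply Subtype.ext
    have h2 : (Algebra.adjoin ℝ (𝔤 : Set (V →L[ℝ] V))).val
        (∑ j, -(D • (A * Y j)) * (D⁻¹ • Y j)) = 1 := by
      rw [map_sum]
      have h3 : ∀ j, (Algebra.adjoin ℝ (𝔤 : Set (V →L[ℝ] V))).val
          (-(D • (A * Y j)) * (D⁻¹ • Y j)) = (A : V →L[ℝ] V) * -(Lc (e j) * Lc (e j)) := by
        intro j
        have h4 : (Algebra.adjoin ℝ (𝔤 : Set (V →L[ℝ] V))).val
          (-(D • (A * Y j)) * (D⁻¹ • Y j)) =
          -(D • ((A : V →L[ℝ] V) * Lc (e j))) * (D⁻¹ • Lc (e j)) := by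
          rw [map_mul, ← hXc, ← hBc]
          rfl
        rw [h4, neg_mul, smul_mul_smul_comm, mul_inv_cancel₀ hD0.ne', one_smul, mul_neg, mul_assoc]
      rw [Finset.sum_congr rfl fun j _ => h3 j, ← Finset.mul_sum, Finset.sum_neg_distrib, ← hScoe]
      have h5 := congrArg (fun T : Algebra.adjoin ℝ (𝔤 : Set (V →L[ℝ] V)) => (T : V →L[ℝ] V)) hAS
      exact h5
    exact h2

end Pool.Agent.Zk71.LieA
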