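import Mathlib

set_option autoImplicit false

open MeasureTheory Filter Topology Set Complex

namespace Pool.Agent.Zk71.Cog

/-- Riemann-Lebesgue, in the form used here. -/
lemma rl (g : ℝ → ℂ) :
    Tendsto (fun t : ℝ => ∫ x : ℝ, g x * cexp (I * ((t * x : ℝ) : ℂ))) (cocompact ℝ) (𝓝 0) := by
  have h := Real.tendsto_integral_exp_smul_cocompact (E := ℂ) g
  have hc : Tendsto (fun t : ℝ => -(t / (2 * Real.pi))) (cocompact ℝ) (cocompact ℝ) := by
    have : Topology.IsClosedEmbedding (fun t : ℝ => -(t / (2 * Real.pi))) := by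
      have h1 : (fun t : ℝ => -(t / (2 * Real.pi))) =
          (Homeomorph.mulLeft₀ (-(1 / (2 * Real.pi))) (by
            have := Real.pi_pos; simp) : ℝ ≃ₜ ℝ) := by
        funext t
        simp
        ring
      rw [h1]
      exact (Homeomorph.mulLeft₀ (-(1 / (2 * Real.pi))) _).isClosedEmbedding
    exact this.tendsto_cocompact
  have h2 := h.comp hc
  refine h2.congr fun t => ?_
  simp only [Function.comp]
  refine integral_congr_ae (Eventually.of_forall fun x => ?_)
  simp only [Real.fourierChar, Circle.smul_def, smul_eq_mul]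
  rw [mul_comm (g x)]
  congr 1
  simp only [AddChar.coe_mk, Circle.coe_exp]
  congr 1
  push_cast
  have : (Real.pi : ℂ) ≠ 0 := by exact_mod_cast Real.pi_ne_zero
  field_simp

/-- Riemann-Lebesgue with a phase without stationary points. -/
lemma rl_phase {s : Set ℝ} (hs : MeasurableSet s) {ψ ψ' : ℝ → ℝ}
    (hd : ∀ x ∈ s, HasDerivWithinAt ψ (ψ' x) s x) (h0 : ∀ x ∈ s, ψ' x ≠ 0) (hinj : InjOn ψ s)
    (w : ℝ → ℂ) :
    Tendsto (fun t : ℝ => ∫ x in s, w x * cexp (I * ((t * ψ x : ℝ) : ℂ))) (cocompact ℝ) (𝓝 0) := by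
  classical
  set inv := Function.invFunOn ψ s with hinv
  set g : ℝ → ℂ := (ψ '' s).indicator fun y => ((|ψ' (inv y)|⁻¹ : ℝ) : ℂ) * w (inv y) with hg
  have hms : MeasurableSet (ψ '' s) := by
    have := hs.image_of_continuousOn_injOn (fun x hx => (hd x hx).continuousWithinAt) hinj
    exact this
  refine (rl g).congr fun t => ?_
  have h1 : ∫ x : ℝ, g x * cexp (I * ((t * x : ℝ) : ℂ)) =
      ∫ x in ψ '' s, (((|ψ' (inv x)|⁻¹ : ℝ) : ℂ) * w (inv x)) * cexp (I * ((t * x : ℝ) : ℂ)) := by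
    rw [← integral_indicator hms]
    refine integral_congr_ae (Eventually.of_forall fun x => ?_)
    simp only [hg, indicator]
    split_ifs <;> simp
  rw [h1, integral_image_eq_integral_abs_deriv_smul hs hd hinj]
  refine setIntegral_congr_fun hs fun x hx => ?_
  have h2 : inv (ψ x) = x := hinj.leftInvOn_invFunOn hx
  have h3 : ((|ψ' x| : ℝ) : ℂ) ≠ 0 := by
    simpa using h0 x hx
  simp only [h2, Complex.real_smul]
  push_cast
  field_simp


/-- the phase -/
noncomputable def φ (x : ℝ) : ℝ := 2 * Real.arctan x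

lemma hasDerivAt_φ (x : ℝ) : HasDerivAt φ (2 / (1 + x ^ 2)) x := by
  have h := (Real.hasDerivAt_arctan x).const_mul 2
  rw [show (2 : ℝ) * (1 / (1 + x ^ 2)) = 2 / (1 + x ^ 2) by ring] at h
  exact h

lemma continuous_φ : Continuous φ := continuous_iff_continuousAt.2 fun x =>
  (hasDerivAt_φ x).continuousAt

/-- the oscillating factor -/
noncomputable def osc (n : ℕ) (t x : ℝ) : ℂ := cexp (I * ((n * φ x + t * x : ℝ) : ℂ))

lemma continuous_osc (n : ℕ) (t : ℝ) : Continuous (osc n t) := by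
  unfold osc
  have := continuous_φ
  fun_prop

lemma norm_osc (n : ℕ) (t x : ℝ) : ‖osc n t x‖ = 1 := by
  unfold osc
  rw [mul_comm, Complex.norm_exp_ofReal_mul_I]

lemma osc_mul_conj (n : ℕ) (t x h : ℝ) :
    osc n t x * (starRingEnd ℂ) (osc n t (x + h)) =
      cexp (I * ((n * (φ x - φ (x + h)) : ℝ) : ℂ)) * cexp (-(I * ((t * h : ℝ) : ℂ))) := by
  unfold osc
  rw [← Complex.exp_conj, ← Complex.exp_add, ← Complex.exp_add]
  congr 1
  simp only [map_mul, Complex.conj_I, Complex.conj_ofReal]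
  push_cast
  ring

/-- for fixed `h ≠ 0` the correlation tends to zero -/
lemma corr (g : ℝ → ℂ) {h : ℝ} (hh : h ≠ 0) :
    Tendsto (fun t : ℝ => ∫ x in Icc (0 : ℝ) 1 ∩ {x | x + h ∈ Icc (0 : ℝ) 1},
      (g x * (starRingEnd ℂ) (g (x + h))) * cexp (I * ((t * (φ x - φ (x + h)) : ℝ) : ℂ)))
      (cocompact ℝ) (𝓝 0) := by
  have hms : MeasurableSet (Icc (0 : ℝ) 1 ∩ {x | x + h ∈ Icc (0 : ℝ) 1}) :=
    measurableSet_Icc.inter ((measurable_id.add_const h) measurableSet_Icc)
  have hd : ∀ x : ℝ, HasDerivAt (fun x => φ x - φ (x + h))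
      (2 / (1 + x ^ 2) - 2 / (1 + (x + h) ^ 2)) x := fun x =>
    (hasDerivAt_φ x).sub ((hasDerivAt_φ (x + h)).comp_add_const x h)
  have hne : ∀ x : ℝ, 0 ≤ x → 0 ≤ x + h → (2 / (1 + x ^ 2) - 2 / (1 + (x + h) ^ 2)) ≠ 0 := by
    intro x hx hxh h0
    have h1 : (1 + x ^ 2) ≠ 0 := by positivity
    have h2 : (1 + (x + h) ^ 2) ≠ 0 := by positivity
    rw [sub_eq_zero, div_eq_div_iff h1 h2] at h0
    have h3 : h * (2 * x + h) = 0 := by nlinarith
    rcases mul_eq_zero.1 h3 with h4 | h4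
    · exact hh h4
    · have : x = 0 := by linarith
      have : h = 0 := by linarith
      exact hh this
  refine rl_phase hms (ψ' := fun x => (2 / (1 + x ^ 2) - 2 / (1 + (x + h) ^ 2)))
    (fun x _ => (hd x).hasDerivWithinAt) ?_ ?_ _
  · rintro x ⟨hx1, hx2⟩
    exact hne x hx1.1 hx2.1
  · have key : ∀ x y : ℝ, x < y → 0 ≤ x → 0 ≤ x + h → φ x - φ (x + h) ≠ φ y - φ (y + h) := by
      intro x y hxy hx hxh he
      obtain ⟨c, hc, hc'⟩ := exists_hasDerivAt_eq_zero (f := fun x => φ x - φ (x + h)) hxy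
        (fun z _ => (hd z).continuousAt.continuousWithinAt) he (fun z _ => hd z)
      exact hne c (by linarith [hc.1]) (by linarith [hc.1]) hc'
    rintro x ⟨hx1, hx2⟩ y ⟨hy1, hy2⟩ he
    rcases lt_trichotomy x y with hlt | heq | hgt
    · exact absurd he (key x y hlt hx1.1 hx2.1)
    · exact heq
    · exact absurd he.symm (key y x hgt hy1.1 hy2.1)


/-- the cut-off function -/
noncomputable def cut (g : ℝ → ℂ) : ℝ → ℂ := (Icc (0 : ℝ) 1).indicator g

lemma integrable_cut {g : ℝ → ℂ} (hg : Continuous g) : Integrable (cut g) :=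
  (integrable_indicator_iff measurableSet_Icc).2 hg.continuousOn.integrableOn_Icc

/-- the correlation -/
noncomputable def KK (g : ℝ → ℂ) (n : ℕ) (h : ℝ) : ℝ :=
  ‖∫ x : ℝ, cut g x * (starRingEnd ℂ) (cut g (x + h)) *
    cexp (I * ((n * (φ x - φ (x + h)) : ℝ) : ℂ))‖

lemma integrable_shift {A B : ℝ → ℂ} (hA : Integrable A) (hB : Integrable B) :
    Integrable (fun z : ℝ × ℝ => A z.1 * B (z.1 + z.2)) (volume.prod volume) := by
  have h1 : Integrable (fun z : ℝ × ℝ => A z.1 * B z.2) (volume.prod volume) := hA.mul_prod hB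
  exact (measurePreserving_prod_add (volume : Measure ℝ) volume).integrable_comp_of_integrable h1

lemma KK_tendsto (g : ℝ → ℂ) (hg : Continuous g) :
    Tendsto (fun n : ℕ => ∫ h : ℝ, KK g n h) atTop (𝓝 0) := by
  have hcut := integrable_cut hg
  have hcutc : Integrable (fun x => (starRingEnd ℂ) (cut g x)) := by
    have := Complex.conjCLE.toContinuousLinearMap.integrable_comp hcut
    exact this
  have hint : ∀ n : ℕ, Integrable (fun z : ℝ × ℝ => cut g z.1 * (starRingEnd ℂ) (cut g (z.1 + z.2)) *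
      cexp (I * ((n * (φ z.1 - φ (z.1 + z.2)) : ℝ) : ℂ))) (volume.prod volume) := by
    intro n
    have h1 := integrable_shift hcut hcutc
    refine h1.mul_bdd (c := 1) ?_ ?_
    · have := continuous_φ
      exact (by fun_prop : Continuous fun z : ℝ × ℝ =>
        cexp (I * ((n * (φ z.1 - φ (z.1 + z.2)) : ℝ) : ℂ))).aestronglyMeasurable
    · refine Eventually.of_forall fun z => ?_
      rw [mul_comm I, Complex.norm_exp_ofReal_mul_I]
  have hb : Integrable (fun z : ℝ × ℝ => ‖cut g z.1 * (starRingEnd ℂ) (cut g (z.1 + z.2))‖)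
      (volume.prod volume) := (integrable_shift hcut hcutc).norm
  have h0 : (0 : ℝ) = ∫ _h : ℝ, (0 : ℝ) := by simp
  rw [h0]
  refine tendsto_integral_of_dominated_convergence
    (fun h : ℝ => ∫ x : ℝ, ‖cut g x * (starRingEnd ℂ) (cut g (x + h))‖) ?_ ?_ ?_ ?_
  · intro n
    exact (hint n).integral_prod_right.norm.aestronglyMeasurable
  · exact hb.integral_prod_right
  · intro n
    refine Eventually.of_forall fun h => ?_
    rw [KK, norm_norm]
    refine (norm_integral_le_integral_norm _).trans (le_of_eq ?_)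
    refine integral_congr_ae (Eventually.of_forall fun x => ?_)
    simp only
    rw [norm_mul, mul_comm I, Complex.norm_exp_ofReal_mul_I, mul_one]
  · have hne : ∀ᵐ h : ℝ, h ≠ 0 := by
      rw [ae_iff]
      simp
    filter_upwards [hne] with h hh
    have h1 := (corr g hh).comp
      ((tendsto_natCast_atTop_atTop (R := ℝ)).mono_right atTop_le_cocompact)
    have h2 := h1.norm
    rw [norm_zero] at h2
    refine h2.congr fun n => ?_
    simp only [Function.comp, KK]
    congr 1
    have hms : MeasurableSet (Icc (0 : ℝ) 1 ∩ {x | x + h ∈ Icc (0 : ℝ) 1}) :=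
      measurableSet_Icc.inter ((measurable_id.add_const h) measurableSet_Icc)
    rw [← integral_indicator hms]
    refine integral_congr_ae (Eventually.of_forall fun x => ?_)
    simp only [cut, indicator, mem_inter_iff, mem_setOf_eq]
    by_cases hx : x ∈ Icc (0 : ℝ) 1 <;> by_cases hxh : x + h ∈ Icc (0 : ℝ) 1 <;> simp [hx, hxh]

lemma sq_le (g : ℝ → ℂ) (hg : Continuous g) (n : ℕ) (t : ℝ) :
    ‖∫ x in Icc (0 : ℝ) 1, g x * osc n t x‖ ^ 2 ≤ ∫ h : ℝ, KK g n h := by
  have hcut := integrable_cut hg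
  set A : ℝ → ℂ := fun x => cut g x * osc n t x with hA
  have hAi : Integrable A := by
    refine hcut.mul_bdd (c := 1) (continuous_osc n t).aestronglyMeasurable ?_
    exact Eventually.of_forall fun x => (norm_osc n t x).le
  have hAc : Integrable (fun x => (starRingEnd ℂ) (A x)) :=
    Complex.conjCLE.toContinuousLinearMap.integrable_comp hAi
  have e1 : ∫ x in Icc (0 : ℝ) 1, g x * osc n t x = ∫ x, A x := by
    rw [← integral_indicator measurableSet_Icc]
    refine integral_congr_ae (Eventually.of_forall fun x => ?_)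
    simp only [hA, cut, indicator]
    split_ifs <;> simp
  have e2 : (∫ x, A x) * (starRingEnd ℂ) (∫ x, A x) =
      ∫ h : ℝ, ∫ x : ℝ, A x * (starRingEnd ℂ) (A (x + h)) := by
    rw [← integral_conj, ← integral_mul_const]
    rw [← integral_integral_swap (integrable_shift hAi hAc)]
    refine integral_congr_ae (Eventually.of_forall fun x => ?_)
    simp only
    rw [integral_const_mul]
    congr 1
    exact (integral_add_left_eq_self (fun y => (starRingEnd ℂ) (A y)) x).symm
  rw [e1, sq]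
  have e3 : ‖∫ x, A x‖ * ‖∫ x, A x‖ = ‖(∫ x, A x) * (starRingEnd ℂ) (∫ x, A x)‖ := by
    rw [norm_mul, RCLike.norm_conj]
  rw [e3, e2]
  refine (norm_integral_le_integral_norm _).trans (le_of_eq ?_)
  refine integral_congr_ae (Eventually.of_forall fun h => ?_)
  simp only [KK]
  have e4 : ∀ x, A x * (starRingEnd ℂ) (A (x + h)) =
      (cut g x * (starRingEnd ℂ) (cut g (x + h)) *
        cexp (I * ((n * (φ x - φ (x + h)) : ℝ) : ℂ))) * cexp (-(I * ((t * h : ℝ) : ℂ))) := by
    intro x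
    simp only [hA, map_mul]
    rw [mul_assoc (cut g x * (starRingEnd ℂ) (cut g (x + h))), ← osc_mul_conj]
    ring
  simp_rw [e4]
  rw [integral_mul_const, norm_mul, ← mul_neg, mul_comm I, ← Complex.ofReal_neg,
    Complex.norm_exp_ofReal_mul_I, mul_one]

/-- uniform decay in `n` -/
lemma uniform_decay (g : ℝ → ℂ) (hg : Continuous g) {ε : ℝ} (hε : 0 < ε) :
    ∃ N : ℕ, ∀ n ≥ N, ∀ t : ℝ, ‖∫ x in Icc (0 : ℝ) 1, g x * osc n t x‖ ≤ ε := by
  have h := KK_tendsto g hg
  have h2 : ∀ᶠ n in atTop, ∫ h : ℝ, KK g n h < ε ^ 2 := h.eventually_lt_const (by positivity)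
  obtain ⟨N, hN⟩ := eventually_atTop.1 h2
  refine ⟨N, fun n hn t => ?_⟩
  have h3 := (sq_le g hg n t).trans (hN n hn).le
  exact (pow_le_pow_iff_left₀ (norm_nonneg _) hε.le (by norm_num)).1 h3

/-- decay in `t`, uniformly in `n` -/
lemma decay (g : ℝ → ℂ) (hg : Continuous g) {ε : ℝ} (hε : 0 < ε) :
    ∃ τ : ℝ, ∀ t : ℝ, τ ≤ |t| → ∀ n : ℕ, ‖∫ x in Icc (0 : ℝ) 1, g x * osc n t x‖ ≤ ε := by
  obtain ⟨N, hN⟩ := uniform_decay g hg hε
  have h1 : ∀ n : ℕ, ∃ τ : ℝ, ∀ t : ℝ, τ ≤ |t| →
      ‖∫ x in Icc (0 : ℝ) 1, g x * osc n t x‖ ≤ ε := by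
    intro n
    have h := rl ((Icc (0 : ℝ) 1).indicator fun x => g x * cexp (I * ((n * φ x : ℝ) : ℂ)))
    have h2 := h.norm
    rw [norm_zero] at h2
    have h3 := h2.eventually_le_const hε
    rw [← Metric.cobounded_eq_cocompact] at h3
    rw [Filter.hasBasis_cobounded_norm.eventually_iff] at h3
    obtain ⟨τ, -, hτ⟩ := h3
    refine ⟨τ, fun t ht => ?_⟩
    have h4 := hτ (x := t) (by simpa using ht)
    refine le_trans (le_of_eq ?_) h4
    congr 1
    rw [← integral_indicator measurableSet_Icc]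
    refine integral_congr_ae (Eventually.of_forall fun x => ?_)
    simp only [indicator]
    split_ifs
    · rw [mul_assoc, ← Complex.exp_add, osc]
      congr 2
      push_cast
      ring
    · simp
  choose τ hτ using h1
  refine ⟨∑ n ∈ Finset.range N, |τ n|, fun t ht n => ?_⟩
  rcases lt_or_ge n N with h | h
  · refine hτ n t (le_trans ?_ ht)
    exact (le_abs_self _).trans
      (Finset.single_le_sum (f := fun n => |τ n|) (fun i _ => abs_nonneg _) (Finset.mem_range.2 h))
  · exact hN n h t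

end Pool.Agent.Zk71.Cog
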