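import Pool.Agent.Zk71.CogA

set_option autoImplicit false

open MeasureTheory Filter Topology Set Complex

namespace Pool.Agent.Zk71.Cog

lemma osc_cos (n : ℕ) (t x : ℝ) :
    osc n 0 x * ((Real.cos (t * x) : ℝ) : ℂ) = (osc n t x + osc n (-t) x) / 2 := by
  have h : ((Real.cos (t * x) : ℝ) : ℂ) = (cexp (I * ((t * x : ℝ) : ℂ)) +
      cexp (I * ((-t * x : ℝ) : ℂ))) / 2 := by
    rw [Complex.ofReal_cos, Complex.cos]
    congr 3
    · rw [mul_comm]
    · push_cast
      ring
  rw [h, mul_div_assoc', mul_add]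
  unfold osc
  rw [← Complex.exp_add, ← Complex.exp_add]
  congr 4
  · push_cast
    ring
  · push_cast
    ring

lemma decay_cos (g : ℝ → ℂ) (hg : Continuous g) {ε : ℝ} (hε : 0 < ε) :
    ∃ τ : ℝ, ∀ t : ℝ, τ ≤ t → ∀ n : ℕ,
      ‖∫ x in Icc (0 : ℝ) 1, g x * osc n 0 x * ((Real.cos (t * x) : ℝ) : ℂ)‖ ≤ ε := by
  obtain ⟨τ, hτ⟩ := decay g hg hε
  refine ⟨τ, fun t ht n => ?_⟩
  have h1 := hτ t (ht.trans (le_abs_self t)) n
  have h2 := hτ (-t) ((ht.trans (le_abs_self t)).trans (abs_neg t).ge) n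
  have hi : ∀ t, IntegrableOn (fun x => g x * osc n t x) (Icc 0 1) := fun t =>
    (hg.mul (continuous_osc n t)).continuousOn.integrableOn_Icc
  have e : ∫ x in Icc (0 : ℝ) 1, g x * osc n 0 x * ((Real.cos (t * x) : ℝ) : ℂ) =
      ((∫ x in Icc (0 : ℝ) 1, g x * osc n t x) + ∫ x in Icc (0 : ℝ) 1, g x * osc n (-t) x) / 2 := by
    rw [← integral_add (hi t) (hi (-t)), ← integral_div]
    refine integral_congr_ae (Eventually.of_forall fun x => ?_)
    simp only
    rw [mul_assoc, osc_cos]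
    ring
  rw [e, norm_div]
  have h3 := norm_add_le (∫ x in Icc (0 : ℝ) 1, g x * osc n t x)
    (∫ x in Icc (0 : ℝ) 1, g x * osc n (-t) x)
  have h4 : ‖(2 : ℂ)‖ = 2 := by simp
  rw [h4, div_le_iff₀ (by norm_num)]
  linarith

lemma decay_cos_real (g : ℝ → ℝ) (hg : Continuous g) {ε : ℝ} (hε : 0 < ε) :
    ∃ τ : ℝ, ∀ t : ℝ, τ ≤ t → |∫ x in Icc (0 : ℝ) 1, g x * Real.cos (t * x)| ≤ ε := by
  obtain ⟨τ, hτ⟩ := decay_cos (fun x => (g x : ℂ)) (by fun_prop) hε
  refine ⟨τ, fun t ht => ?_⟩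
  have h := hτ t ht 0
  refine le_trans (le_of_eq ?_) h
  rw [← Real.norm_eq_abs, ← Complex.norm_real, ← integral_complex_ofReal]
  congr 1
  refine integral_congr_ae (Eventually.of_forall fun x => ?_)
  simp [osc]

/-- the density attached to a list of frequencies -/
noncomputable def ρ (l : List ℝ) (x : ℝ) : ℝ := (l.map fun t => 1 + Real.cos (t * x)).prod

lemma ρ_nil (x : ℝ) : ρ [] x = 1 := by simp [ρ]

lemma ρ_cons (t : ℝ) (l : List ℝ) (x : ℝ) : ρ (t :: l) x = (1 + Real.cos (t * x)) * ρ l x := by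
  simp [ρ]

lemma continuous_ρ (l : List ℝ) : Continuous (ρ l) := by
  induction l with
  | nil =>
    have : ρ [] = fun _ => 1 := funext ρ_nil
    rw [this]
    exact continuous_const
  | cons t l ih =>
    have : ρ (t :: l) = fun x => (1 + Real.cos (t * x)) * ρ l x := funext (ρ_cons t l)
    rw [this]
    fun_prop

lemma ρ_nonneg (l : List ℝ) (x : ℝ) : 0 ≤ ρ l x := by
  induction l with
  | nil => rw [ρ_nil]; norm_num
  | cons t l ih =>
    rw [ρ_cons]
    have := Real.neg_one_le_cos (t * x)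
    exact mul_nonneg (by linarith) ih

/-- the tolerance -/
noncomputable def eps (k : ℕ) : ℝ := (1 / 2) ^ (k + 6)

lemma eps_pos (k : ℕ) : 0 < eps k := by unfold eps; positivity

/-- `t` is an admissible continuation of the list `l`. -/
structure Good (f : ℕ → ℝ → ℂ) (l : List ℝ) (t : ℝ) : Prop where
  large : (l.length : ℝ) ≤ t
  test : ∀ a ≤ l.length, ∀ n : ℕ, ‖∫ x in Icc (0 : ℝ) 1, (f a x * (ρ l x : ℂ)) * osc n 0 x *
    ((Real.cos (t * x) : ℝ) : ℂ)‖ ≤ eps l.length
  old : ∀ s ∈ l, |∫ x in Icc (0 : ℝ) 1, (Real.cos (s * x) * ρ l x) * Real.cos (t * x)| ≤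
    eps l.length
  one : |∫ x in Icc (0 : ℝ) 1, ρ l x * Real.cos (t * x)| ≤ eps l.length
  two : |∫ x in Icc (0 : ℝ) 1, ρ l x * Real.cos (2 * t * x)| ≤ eps l.length

lemma exists_good (f : ℕ → ℝ → ℂ) (hf : ∀ a, Continuous (f a)) (l : List ℝ) :
    ∃ t, Good f l t := by
  have hρ := continuous_ρ l
  have he := eps_pos l.length
  choose τ hτ using fun a : ℕ => decay_cos (fun x => f a x * (ρ l x : ℂ))
    ((hf a).mul (by fun_prop)) he
  choose σ hσ using fun s : ℝ => decay_cos_real (fun x => Real.cos (s * x) * ρ l x)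
    (by fun_prop) he
  obtain ⟨κ, hκ⟩ := decay_cos_real (ρ l) hρ he
  set t : ℝ := l.length + ∑ a ∈ Finset.range (l.length + 1), |τ a| +
    ∑ s ∈ l.toFinset, |σ s| + |κ| with ht
  have p1 : (0 : ℝ) ≤ ∑ a ∈ Finset.range (l.length + 1), |τ a| :=
    Finset.sum_nonneg fun _ _ => abs_nonneg _
  have p2 : (0 : ℝ) ≤ ∑ s ∈ l.toFinset, |σ s| := Finset.sum_nonneg fun _ _ => abs_nonneg _
  have p3 : 0 ≤ |κ| := abs_nonneg κ
  have p0 : (0 : ℝ) ≤ l.length := by positivity
  refine ⟨t, ⟨by linarith, ?_, ?_, ?_, ?_⟩⟩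
  · intro a ha n
    refine hτ a t ?_ n
    have := Finset.single_le_sum (f := fun a => |τ a|) (s := Finset.range (l.length + 1))
      (fun i _ => abs_nonneg _) (Finset.mem_range.2 (Nat.lt_succ_of_le ha))
    have h2 := le_abs_self (τ a)
    beta_reduce at this
    linarith
  · intro s hs
    refine hσ s t ?_
    have := Finset.single_le_sum (f := fun a => |σ a|) (s := l.toFinset)
      (fun i _ => abs_nonneg _) (List.mem_toFinset.2 hs)
    have h2 := le_abs_self (σ s)
    beta_reduce at this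
    linarith
  · exact hκ t (by linarith [le_abs_self κ])
  · exact hκ (2 * t) (by linarith [le_abs_self κ])

/-- the next frequency -/
noncomputable def next (f : ℕ → ℝ → ℂ) (hf : ∀ a, Continuous (f a)) (l : List ℝ) : ℝ :=
  (exists_good f hf l).choose

lemma next_good (f : ℕ → ℝ → ℂ) (hf : ∀ a, Continuous (f a)) (l : List ℝ) :
    Good f l (next f hf l) := (exists_good f hf l).choose_spec

/-- the list of the first `k` frequencies -/
noncomputable def L (f : ℕ → ℝ → ℂ) (hf : ∀ a, Continuous (f a)) : ℕ → List ℝ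
  | 0 => []
  | k + 1 => next f hf (L f hf k) :: L f hf k

lemma length_L (f : ℕ → ℝ → ℂ) (hf : ∀ a, Continuous (f a)) (k : ℕ) : (L f hf k).length = k := by
  induction k with
  | zero => rfl
  | succ k ih => simp [L, ih]

section seq

variable (f : ℕ → ℝ → ℂ) (hf : ∀ a, Continuous (f a))

/-- the frequencies -/
noncomputable def tt (k : ℕ) : ℝ := next f hf (L f hf k)

/-- the densities -/
noncomputable def R (k : ℕ) : ℝ → ℝ := ρ (L f hf k)

lemma continuous_R (k : ℕ) : Continuous (R f hf k) := continuous_ρ _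

lemma R_nonneg (k : ℕ) (x : ℝ) : 0 ≤ R f hf k x := ρ_nonneg _ _

lemma R_zero (x : ℝ) : R f hf 0 x = 1 := ρ_nil x

lemma R_succ (k : ℕ) (x : ℝ) : R f hf (k + 1) x = (1 + Real.cos (tt f hf k * x)) * R f hf k x :=
  ρ_cons _ _ _

lemma tt_mem {j k : ℕ} (h : j < k) : tt f hf j ∈ L f hf k := by
  induction k with
  | zero => omega
  | succ k ih =>
    rcases Nat.lt_succ_iff_lt_or_eq.1 h with h1 | h1
    · exact List.mem_cons_of_mem _ (ih h1)
    · subst h1
      exact List.mem_cons_self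

lemma tt_good (k : ℕ) : Good f (L f hf k) (tt f hf k) := next_good f hf _

lemma tt_large (k : ℕ) : (k : ℝ) ≤ tt f hf k := by
  have := (tt_good f hf k).large
  rwa [length_L] at this

/-- the sum of the tolerances -/
lemma eps_add (k : ℕ) : 2 * eps (k + 1) + eps k = 2 * eps k := by
  unfold eps
  ring

lemma test_step (a k n : ℕ) (h : a ≤ k) :
    ‖∫ x in Icc (0 : ℝ) 1, (f a x * (R f hf (k + 1) x : ℂ)) * osc n 0 x‖ ≤
      ‖∫ x in Icc (0 : ℝ) 1, (f a x * (R f hf k x : ℂ)) * osc n 0 x‖ + eps k := by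
  have h1 := (tt_good f hf k).test a (by rwa [length_L]) n
  rw [length_L] at h1
  have c1 := continuous_R f hf k
  have c2 := hf a
  have c3 := continuous_osc n 0
  have i1 : IntegrableOn (fun x => (f a x * (R f hf k x : ℂ)) * osc n 0 x) (Icc 0 1) :=
    (by fun_prop : Continuous fun x => (f a x * (R f hf k x : ℂ)) * osc n 0 x).continuousOn.integrableOn_Icc
  have i2 : IntegrableOn (fun x => (f a x * (R f hf k x : ℂ)) * osc n 0 x *
      ((Real.cos (tt f hf k * x) : ℝ) : ℂ)) (Icc 0 1) :=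
    (by fun_prop : Continuous fun x => (f a x * (R f hf k x : ℂ)) * osc n 0 x *
      ((Real.cos (tt f hf k * x) : ℝ) : ℂ)).continuousOn.integrableOn_Icc
  have e : ∫ x in Icc (0 : ℝ) 1, (f a x * (R f hf (k + 1) x : ℂ)) * osc n 0 x =
      (∫ x in Icc (0 : ℝ) 1, (f a x * (R f hf k x : ℂ)) * osc n 0 x) +
      ∫ x in Icc (0 : ℝ) 1, (f a x * (R f hf k x : ℂ)) * osc n 0 x *
      ((Real.cos (tt f hf k * x) : ℝ) : ℂ) := by
    rw [← integral_add i1 i2]
    refine integral_congr_ae (Eventually.of_forall fun x => ?_)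
    simp only [R_succ]
    push_cast
    ring
  rw [e]
  exact (norm_add_le _ _).trans (by gcongr; exact h1)

lemma test_bound (a k n : ℕ) (h : a ≤ k) (m : ℕ) :
    ‖∫ x in Icc (0 : ℝ) 1, (f a x * (R f hf (k + m) x : ℂ)) * osc n 0 x‖ + 2 * eps (k + m) ≤
      ‖∫ x in Icc (0 : ℝ) 1, (f a x * (R f hf k x : ℂ)) * osc n 0 x‖ + 2 * eps k := by
  induction m with
  | zero => simp
  | succ m ih =>
    have h1 := test_step f hf a (k + m) n (by omega)
    have h2 := eps_add (k + m)
    rw [← add_assoc k m 1]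
    linarith

lemma Z_step (k : ℕ) : |(∫ x in Icc (0 : ℝ) 1, R f hf (k + 1) x) -
    ∫ x in Icc (0 : ℝ) 1, R f hf k x| ≤ eps k := by
  have h1 := (tt_good f hf k).one
  rw [length_L] at h1
  have c1 := continuous_R f hf k
  have c2 := continuous_R f hf (k + 1)
  have e : (∫ x in Icc (0 : ℝ) 1, R f hf (k + 1) x) - ∫ x in Icc (0 : ℝ) 1, R f hf k x =
      ∫ x in Icc (0 : ℝ) 1, R f hf k x * Real.cos (tt f hf k * x) := by
    rw [← integral_sub c2.continuousOn.integrableOn_Icc c1.continuousOn.integrableOn_Icc]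
    refine integral_congr_ae (Eventually.of_forall fun x => ?_)
    simp only [R_succ]
    ring
  rw [e]
  exact h1

lemma Z_bound (k : ℕ) : |(∫ x in Icc (0 : ℝ) 1, R f hf k x) - 1| + 2 * eps k ≤ 2 * eps 0 := by
  induction k with
  | zero =>
    have : ∫ x in Icc (0 : ℝ) 1, R f hf 0 x = 1 := by
      simp_rw [R_zero]
      simp
    rw [this]
    simp
  | succ k ih =>
    have h1 := Z_step f hf k
    have h2 := eps_add k
    have h3 := abs_sub_le (∫ x in Icc (0 : ℝ) 1, R f hf (k + 1) x) (∫ x in Icc (0 : ℝ) 1, R f hf k x) 1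
    linarith

lemma Z_lower (k : ℕ) : 1 / 2 ≤ ∫ x in Icc (0 : ℝ) 1, R f hf k x := by
  have h := Z_bound f hf k
  have h1 := eps_pos k
  have h2 : eps 0 = 1 / 64 := by unfold eps; norm_num
  have h3 := (abs_le.1 (le_refl |(∫ x in Icc (0 : ℝ) 1, R f hf k x) - 1|)).1
  rw [h2] at h
  linarith

lemma Z_upper (k : ℕ) : ∫ x in Icc (0 : ℝ) 1, R f hf k x ≤ 2 := by
  have h := Z_bound f hf k
  have h1 := eps_pos k
  have h2 : eps 0 = 1 / 64 := by unfold eps; norm_num
  have h3 := le_abs_self ((∫ x in Icc (0 : ℝ) 1, R f hf k x) - 1)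
  rw [h2] at h
  linarith

lemma cos_step (j k : ℕ) (h : j < k) :
    |(∫ x in Icc (0 : ℝ) 1, Real.cos (tt f hf j * x) * R f hf (k + 1) x) -
    ∫ x in Icc (0 : ℝ) 1, Real.cos (tt f hf j * x) * R f hf k x| ≤ eps k := by
  have h1 := (tt_good f hf k).old _ (tt_mem f hf h)
  rw [length_L] at h1
  have c1 := continuous_R f hf k
  have c2 := continuous_R f hf (k + 1)
  have e : (∫ x in Icc (0 : ℝ) 1, Real.cos (tt f hf j * x) * R f hf (k + 1) x) -
      ∫ x in Icc (0 : ℝ) 1, Real.cos (tt f hf j * x) * R f hf k x =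
      ∫ x in Icc (0 : ℝ) 1, (Real.cos (tt f hf j * x) * R f hf k x) *
        Real.cos (tt f hf k * x) := by
    rw [← integral_sub]
    · refine integral_congr_ae (Eventually.of_forall fun x => ?_)
      simp only [R_succ]
      ring
    · exact (by fun_prop : Continuous fun x => Real.cos (tt f hf j * x) * R f hf (k + 1) x).continuousOn.integrableOn_Icc
    · exact (by fun_prop : Continuous fun x => Real.cos (tt f hf j * x) * R f hf k x).continuousOn.integrableOn_Icc
  rw [e]
  exact h1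

lemma cos_first (j : ℕ) :
    15 / 32 - 1 / 32 ≤ ∫ x in Icc (0 : ℝ) 1, Real.cos (tt f hf j * x) * R f hf (j + 1) x := by
  have h1 := (tt_good f hf j).one
  have h2 := (tt_good f hf j).two
  rw [length_L] at h1 h2
  have hZ := Z_bound f hf j
  have c1 := continuous_R f hf j
  have e : ∫ x in Icc (0 : ℝ) 1, Real.cos (tt f hf j * x) * R f hf (j + 1) x =
      (∫ x in Icc (0 : ℝ) 1, R f hf j x * Real.cos (tt f hf j * x)) +
      (1 / 2) * (∫ x in Icc (0 : ℝ) 1, R f hf j x) +
      (1 / 2) * (∫ x in Icc (0 : ℝ) 1, R f hf j x * Real.cos (2 * tt f hf j * x)) := by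
    rw [← integral_const_mul, ← integral_const_mul, ← integral_add, ← integral_add]
    · refine integral_congr_ae (Eventually.of_forall fun x => ?_)
      simp only [R_succ]
      have : Real.cos (2 * tt f hf j * x) = 2 * Real.cos (tt f hf j * x) ^ 2 - 1 := by
        rw [mul_assoc, Real.cos_two_mul]
      rw [this]
      ring
    · exact (by fun_prop : Continuous fun x => R f hf j x * Real.cos (tt f hf j * x) + 1 / 2 * R f hf j x).continuousOn.integrableOn_Icc
    · exact (by fun_prop : Continuous fun x => (1 / 2) * (R f hf j x * Real.cos (2 * tt f hf j * x))).continuousOn.integrableOn_Icc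
    · exact (by fun_prop : Continuous fun x => R f hf j x * Real.cos (tt f hf j * x)).continuousOn.integrableOn_Icc
    · exact (by fun_prop : Continuous fun x => (1 / 2) * R f hf j x).continuousOn.integrableOn_Icc
  rw [e]
  have h3 : eps j ≤ 1 / 64 := by
    unfold eps
    calc ((1 : ℝ) / 2) ^ (j + 6) ≤ (1 / 2) ^ 6 :=
          pow_le_pow_of_le_one (by norm_num) (by norm_num) (by omega)
      _ = 1 / 64 := by norm_num
  have h4 : eps 0 = 1 / 64 := by unfold eps; norm_num
  have h5 := eps_pos j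
  have h6 := (abs_le.1 h1).1
  have h7 := (abs_le.1 h2).1
  have h8 := (abs_le.1 (le_refl |(∫ x in Icc (0 : ℝ) 1, R f hf j x) - 1|)).1
  rw [h4] at hZ
  unfold R at *
  linarith

lemma cos_bound (j m : ℕ) :
    13 / 32 + 2 * eps (j + 1 + m) ≤
      ∫ x in Icc (0 : ℝ) 1, Real.cos (tt f hf j * x) * R f hf (j + 1 + m) x := by
  induction m with
  | zero =>
    have h1 := cos_first f hf j
    have h3 : eps (j + 1) ≤ 1 / 64 := by
      unfold eps
      calc ((1 : ℝ) / 2) ^ (j + 1 + 6) ≤ (1 / 2) ^ 6 :=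
            pow_le_pow_of_le_one (by norm_num) (by norm_num) (by omega)
        _ = 1 / 64 := by norm_num
    rw [add_zero]
    linarith
  | succ m ih =>
    have h1 := cos_step f hf j (j + 1 + m) (by omega)
    have h2 := eps_add (j + 1 + m)
    have h3 := (abs_le.1 h1).1
    rw [← add_assoc (j + 1) m 1]
    linarith

end seq

end Pool.Agent.Zk71.Cog
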