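import Pool.Agent.Zk71.CogB

set_option autoImplicit false

open MeasureTheory Filter Topology Set Complex

namespace Pool.Agent.Zk71.Cog

/-- a dense sequence of test functions -/
noncomputable def fd : ℕ → C(unitInterval, ℂ) := TopologicalSpace.denseSeq C(unitInterval, ℂ)

/-- extension to the line -/
noncomputable def fe (a : ℕ) (x : ℝ) : ℂ := fd a (projIcc 0 1 zero_le_one x)

lemma continuous_fe (a : ℕ) : Continuous (fe a) := (fd a).continuous.comp continuous_projIcc

/-- the densities -/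
noncomputable def rr (k : ℕ) : ℝ → ℝ := R fe continuous_fe k

/-- the frequencies -/
noncomputable def fr (k : ℕ) : ℝ := tt fe continuous_fe k

/-- the normalising constants -/
noncomputable def ZZ (k : ℕ) : ℝ := ∫ x in Icc (0 : ℝ) 1, rr k x

lemma ZZ_pos (k : ℕ) : 0 < ZZ k := by
  have := Z_lower fe continuous_fe k
  unfold ZZ rr
  linarith

lemma continuous_rr (k : ℕ) : Continuous (rr k) := continuous_R _ _ k

lemma rr_nonneg (k : ℕ) (x : ℝ) : 0 ≤ rr k x := R_nonneg _ _ k x

/-- the approximating measures -/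
noncomputable def mm (k : ℕ) : Measure unitInterval :=
  (volume : Measure unitInterval).withDensity fun x => ENNReal.ofReal (rr k x / ZZ k)

lemma integral_mm {E : Type} [NormedAddCommGroup E] [NormedSpace ℝ E] (k : ℕ) (F : ℝ → E) :
    ∫ x : unitInterval, F x ∂(mm k) = (ZZ k)⁻¹ • ∫ x in Icc (0 : ℝ) 1, rr k x • F x := by
  have hc := continuous_rr k
  unfold mm
  rw [integral_withDensity_eq_integral_toReal_smul]
  · rw [← integral_smul, ← integral_subtype measurableSet_Icc]
    refine integral_congr_ae (Eventually.of_forall fun x => ?_)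
    simp only
    rw [ENNReal.toReal_ofReal (div_nonneg (rr_nonneg k x) (ZZ_pos k).le), smul_smul]
    congr 1
    rw [div_eq_inv_mul]
  · exact (by fun_prop : Continuous fun x : unitInterval => rr k x / ZZ k).measurable.ennreal_ofReal
  · exact Eventually.of_forall fun x => ENNReal.ofReal_lt_top

instance (k : ℕ) : IsProbabilityMeasure (mm k) := by
  constructor
  have hc := continuous_rr k
  have h0 : ∀ x, 0 ≤ rr k x / ZZ k := fun x => div_nonneg (rr_nonneg k x) (ZZ_pos k).le
  unfold mm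
  rw [withDensity_apply _ MeasurableSet.univ, Measure.restrict_univ,
    ← ofReal_integral_eq_lintegral_ofReal]
  · have : ∫ x : unitInterval, rr k x / ZZ k = 1 := by
      rw [integral_subtype measurableSet_Icc (fun x : ℝ => rr k x / ZZ k), integral_div]
      exact div_self (ZZ_pos k).ne'
    rw [this]
    simp
  · have h1 : Continuous fun x : unitInterval => rr k x / ZZ k := by fun_prop
    exact (BoundedContinuousFunction.mkOfCompact ⟨_, h1⟩).integrable _
  · exact Eventually.of_forall fun x => h0 x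

/-- the approximating measures -/
noncomputable def pm (k : ℕ) : ProbabilityMeasure unitInterval := ⟨mm k, inferInstance⟩

lemma continuous_int (F : C(unitInterval, ℂ)) :
    Continuous fun ν : ProbabilityMeasure unitInterval => ∫ x, F x ∂(ν : Measure unitInterval) := by
  rw [continuous_iff_continuousAt]
  intro ν
  have h := (ProbabilityMeasure.tendsto_iff_forall_integral_rclike_tendsto ℂ (F := 𝓝 ν)
    (μs := id) (μ := ν)).1 tendsto_id (BoundedContinuousFunction.mkOfCompact F)
  exact h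

/-- the oscillating factor on the unit interval -/
noncomputable def oc (n : ℕ) : C(unitInterval, ℂ) :=
  ⟨fun x => osc n 0 x, (continuous_osc n 0).comp continuous_subtype_val⟩

/-- the cosine on the unit interval -/
noncomputable def cosc (t : ℝ) : C(unitInterval, ℂ) :=
  ⟨fun x => ((Real.cos (t * x) : ℝ) : ℂ), by fun_prop⟩

lemma mm_test (a k n m : ℕ) (h : a ≤ k) :
    ‖∫ x, (fd a * oc n) x ∂(mm (k + m))‖ ≤
      2 * ‖∫ x in Icc (0 : ℝ) 1, (fe a x * (rr k x : ℂ)) * osc n 0 x‖ + 4 * eps k := by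
  have h1 := test_bound fe continuous_fe a k n h m
  have h2 := Z_lower fe continuous_fe (k + m)
  have h3 := eps_pos (k + m)
  have e : ∫ x, (fd a * oc n) x ∂(mm (k + m)) =
      (ZZ (k + m))⁻¹ • ∫ x in Icc (0 : ℝ) 1, (fe a x * (rr (k + m) x : ℂ)) * osc n 0 x := by
    have h4 := integral_mm (k + m) (fun x => fe a x * osc n 0 x)
    have h5 : ∫ x : unitInterval, (fe a x * osc n 0 x) ∂(mm (k + m)) =
        ∫ x, (fd a * oc n) x ∂(mm (k + m)) := by
      refine integral_congr_ae (Eventually.of_forall fun x => ?_)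
      simp only [ContinuousMap.mul_apply, oc, ContinuousMap.coe_mk, fe, projIcc_val]
    rw [← h5, h4]
    congr 1
    refine integral_congr_ae (Eventually.of_forall fun x => ?_)
    simp only [Complex.real_smul]
    ring
  rw [e, norm_smul, norm_inv, Real.norm_eq_abs, abs_of_pos (ZZ_pos _)]
  change 1 / 2 ≤ ZZ (k + m) at h2
  change ‖∫ x in Icc (0 : ℝ) 1, (fe a x * (rr (k + m) x : ℂ)) * osc n 0 x‖ + 2 * eps (k + m) ≤
    ‖∫ x in Icc (0 : ℝ) 1, (fe a x * (rr k x : ℂ)) * osc n 0 x‖ + 2 * eps k at h1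
  have h4 : (ZZ (k + m))⁻¹ ≤ 2 := by
    rw [inv_le_comm₀ (ZZ_pos _) (by norm_num)]
    linarith
  calc (ZZ (k + m))⁻¹ * ‖∫ x in Icc (0 : ℝ) 1, (fe a x * (rr (k + m) x : ℂ)) * osc n 0 x‖
      ≤ 2 * ‖∫ x in Icc (0 : ℝ) 1, (fe a x * (rr (k + m) x : ℂ)) * osc n 0 x‖ := by gcongr
    _ ≤ _ := by linarith

lemma mm_cos (j m : ℕ) : 1 / 8 ≤ (∫ x, cosc (fr j) x ∂(mm (j + 1 + m))).re := by
  have h1 := cos_bound fe continuous_fe j m
  have h2 := Z_upper fe continuous_fe (j + 1 + m)
  have h3 := eps_pos (j + 1 + m)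
  have hp := ZZ_pos (j + 1 + m)
  have h4 := integral_mm (j + 1 + m) (fun x => ((Real.cos (fr j * x) : ℝ) : ℂ))
  have e : ∫ x, cosc (fr j) x ∂(mm (j + 1 + m)) =
      (((ZZ (j + 1 + m))⁻¹ * ∫ x in Icc (0 : ℝ) 1, Real.cos (fr j * x) * rr (j + 1 + m) x : ℝ) : ℂ) := by
    have h5 : ∫ x, cosc (fr j) x ∂(mm (j + 1 + m)) =
        ∫ x : unitInterval, ((Real.cos (fr j * x) : ℝ) : ℂ) ∂(mm (j + 1 + m)) := rfl
    rw [h5, h4, Complex.real_smul, Complex.ofReal_mul, ← integral_complex_ofReal]
    congr 1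
    refine integral_congr_ae (Eventually.of_forall fun x => ?_)
    simp only [Complex.real_smul]
    push_cast
    ring
  rw [e, Complex.ofReal_re]
  change 13 / 32 + 2 * eps (j + 1 + m) ≤
      ∫ x in Icc (0 : ℝ) 1, Real.cos (fr j * x) * rr (j + 1 + m) x at h1
  change ZZ (j + 1 + m) ≤ 2 at h2
  rw [← div_eq_inv_mul, le_div_iff₀ hp]
  linarith

/-- A probability measure on the unit interval which is not a Rajchman measure, but whose image
under the Cayley transform is one. -/
theorem exists_measure : ∃ μ : Measure unitInterval, IsProbabilityMeasure μ ∧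
    (∀ F : C(unitInterval, ℂ), Tendsto (fun n : ℕ => ∫ x, (F * oc n) x ∂μ) atTop (𝓝 0)) ∧
    (∀ j : ℕ, ∃ t : ℝ, (j : ℝ) ≤ t ∧ 1 / 8 ≤ (∫ x, cosc t x ∂μ).re) := by
  obtain ⟨ν, -, hν⟩ := (isCompact_univ (X := ProbabilityMeasure unitInterval)).exists_mapClusterPt
    (f := atTop) (u := pm) (by simp)
  have hclosed : ∀ (C : Set (ProbabilityMeasure unitInterval)) (k : ℕ), IsClosed C →
      (∀ m, pm (k + m) ∈ C) → ν ∈ C := by
    intro C k hC h
    refine hC.mem_of_mapClusterPt hν ?_
    filter_upwards [eventually_ge_atTop k] with l hl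
    obtain ⟨m, rfl⟩ := Nat.exists_eq_add_of_le hl
    exact h m
  have htest : ∀ a k n : ℕ, a ≤ k → ‖∫ x, (fd a * oc n) x ∂(ν : Measure unitInterval)‖ ≤
      2 * ‖∫ x in Icc (0 : ℝ) 1, (fe a x * (rr k x : ℂ)) * osc n 0 x‖ + 4 * eps k := by
    intro a k n h
    exact hclosed {ν | ‖∫ x, (fd a * oc n) x ∂(ν : Measure unitInterval)‖ ≤
      2 * ‖∫ x in Icc (0 : ℝ) 1, (fe a x * (rr k x : ℂ)) * osc n 0 x‖ + 4 * eps k} k
      (isClosed_le (continuous_int _).norm continuous_const) (fun m => mm_test a k n m h)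
  have hcos : ∀ j, 1 / 8 ≤ (∫ x, cosc (fr j) x ∂(ν : Measure unitInterval)).re := by
    intro j
    exact hclosed {ν | 1 / 8 ≤ (∫ x, cosc (fr j) x ∂(ν : Measure unitInterval)).re} (j + 1)
      (isClosed_le continuous_const (Complex.continuous_re.comp (continuous_int _)))
      (fun m => mm_cos j m)
  have hfd : ∀ a : ℕ, Tendsto (fun n : ℕ => ∫ x, (fd a * oc n) x ∂(ν : Measure unitInterval))
      atTop (𝓝 0) := by
    intro a
    rw [tendsto_zero_iff_norm_tendsto_zero]
    rw [Metric.tendsto_atTop]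
    intro ε hε
    obtain ⟨k, hak, hk⟩ : ∃ k, a ≤ k ∧ 4 * eps k < ε / 2 := by
      have h1 : Tendsto (fun k => 4 * eps k) atTop (𝓝 0) := by
        have h2 : Tendsto (fun k : ℕ => ((1 : ℝ) / 2) ^ (k + 6)) atTop (𝓝 0) :=
          (tendsto_pow_atTop_nhds_zero_of_lt_one (by norm_num) (by norm_num)).comp
            (tendsto_add_atTop_nat 6)
        have h3 := h2.const_mul 4
        rw [mul_zero] at h3
        exact h3
      obtain ⟨k, hk1, hk2⟩ := ((h1.eventually_lt_const (half_pos hε)).and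
        (eventually_ge_atTop a)).exists
      exact ⟨k, hk2, hk1⟩
    have hc := continuous_rr k
    have hcf := continuous_fe a
    obtain ⟨N, hN⟩ := uniform_decay (fun x => fe a x * (rr k x : ℂ)) (by fun_prop)
      (ε := ε / 5) (by positivity)
    refine ⟨N, fun n hn => ?_⟩
    have h1 := htest a k n hak
    have h2 := hN n hn 0
    rw [Real.dist_eq, sub_zero, abs_of_nonneg (norm_nonneg _)]
    linarith
  refine ⟨ν, inferInstance, ?_, fun j => ⟨fr j, tt_large _ _ j, hcos j⟩⟩
  intro F
  rw [tendsto_zero_iff_norm_tendsto_zero, Metric.tendsto_atTop]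
  intro ε hε
  obtain ⟨a, ha⟩ : ∃ a, ‖F - fd a‖ < ε / 2 := by
    have h := (TopologicalSpace.denseRange_denseSeq C(unitInterval, ℂ)).exists_dist_lt F
      (half_pos hε)
    obtain ⟨a, ha⟩ := h
    exact ⟨a, by rwa [dist_eq_norm] at ha⟩
  have h := hfd a
  rw [tendsto_zero_iff_norm_tendsto_zero, Metric.tendsto_atTop] at h
  obtain ⟨N, hN⟩ := h (ε / 2) (half_pos hε)
  refine ⟨N, fun n hn => ?_⟩
  have h1 := hN n hn
  rw [Real.dist_eq, sub_zero, abs_of_nonneg (norm_nonneg _)] at h1 ⊢
  have e : ∫ x, (F * oc n) x ∂(ν : Measure unitInterval) =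
      (∫ x, ((F - fd a) * oc n) x ∂(ν : Measure unitInterval)) +
        ∫ x, (fd a * oc n) x ∂(ν : Measure unitInterval) := by
    rw [← integral_add]
    · refine integral_congr_ae (Eventually.of_forall fun x => ?_)
      simp only [ContinuousMap.mul_apply, ContinuousMap.sub_apply]
      ring
    · exact (BoundedContinuousFunction.mkOfCompact ((F - fd a) * oc n)).integrable _
    · exact (BoundedContinuousFunction.mkOfCompact (fd a * oc n)).integrable _
  rw [e]
  have h2 : ‖∫ x, ((F - fd a) * oc n) x ∂(ν : Measure unitInterval)‖ ≤ ‖F - fd a‖ := by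
    refine (norm_integral_le_of_norm_le_const (C := ‖F - fd a‖)
      (Eventually.of_forall fun x => ?_)).trans (le_of_eq (by simp))
    rw [ContinuousMap.mul_apply, norm_mul]
    have : ‖oc n x‖ = 1 := norm_osc n 0 x
    rw [this, mul_one]
    exact ContinuousMap.norm_coe_le_norm _ x
  exact (norm_add_le _ _).trans_lt (by linarith)

end Pool.Agent.Zk71.Cog
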