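import Pool.Agent.Zk71.CogC

set_option autoImplicit false

open MeasureTheory Filter Topology Set Complex

namespace Pool.Agent.Zk71.Cog

section ops

variable (μ : Measure unitInterval) [IsProbabilityMeasure μ]

/-- multiplication of a square integrable function by a continuous function -/
lemma memLp_mul (c : C(unitInterval, ℂ)) (f : Lp ℂ 2 μ) : MemLp (fun x => c x * f x) 2 μ := by
  refine (Lp.memLp f).of_le_mul (c := ‖c‖)
    (c.continuous.aestronglyMeasurable.mul (Lp.aestronglyMeasurable f)) ?_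
  refine Eventually.of_forall fun x => ?_
  rw [norm_mul]
  gcongr
  exact ContinuousMap.norm_coe_le_norm c x

/-- the multiplication operator -/
noncomputable def mulOp (c : C(unitInterval, ℂ)) : Lp ℂ 2 μ →L[ℂ] Lp ℂ 2 μ :=
  LinearMap.mkContinuous
    { toFun := fun f => (memLp_mul μ c f).toLp
      map_add' := by
        intro f g
        apply Lp.ext
        filter_upwards [(memLp_mul μ c (f + g)).coeFn_toLp, (memLp_mul μ c f).coeFn_toLp,
          (memLp_mul μ c g).coeFn_toLp, Lp.coeFn_add f g,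
          Lp.coeFn_add (memLp_mul μ c f).toLp (memLp_mul μ c g).toLp] with x h1 h2 h3 h4 h5
        rw [h1, h5, Pi.add_apply, h2, h3, h4, Pi.add_apply, mul_add]
      map_smul' := by
        intro r f
        apply Lp.ext
        filter_upwards [(memLp_mul μ c (r • f)).coeFn_toLp, (memLp_mul μ c f).coeFn_toLp,
          Lp.coeFn_smul r f, Lp.coeFn_smul r (memLp_mul μ c f).toLp] with x h1 h2 h3 h4
        rw [h1, RingHom.id_apply, h4, Pi.smul_apply, h2, h3, Pi.smul_apply, smul_eq_mul,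
          smul_eq_mul]
        ring } ‖c‖ (by
    intro f
    refine Lp.norm_le_mul_norm_of_ae_le_mul ?_
    filter_upwards [(memLp_mul μ c f).coeFn_toLp] with x h1
    change ‖((memLp_mul μ c f).toLp : unitInterval → ℂ) x‖ ≤ _
    rw [h1, norm_mul]
    gcongr
    exact ContinuousMap.norm_coe_le_norm c x)

lemma coeFn_mulOp (c : C(unitInterval, ℂ)) (f : Lp ℂ 2 μ) :
    (mulOp μ c f : unitInterval → ℂ) =ᵐ[μ] fun x => c x * f x :=
  (memLp_mul μ c f).coeFn_toLp

lemma norm_mulOp_le (c : C(unitInterval, ℂ)) : ‖mulOp μ c‖ ≤ ‖c‖ :=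
  LinearMap.mkContinuous_norm_le _ (norm_nonneg _) _

lemma mulOp_mul (c d : C(unitInterval, ℂ)) : mulOp μ (c * d) = mulOp μ c * mulOp μ d := by
  refine ContinuousLinearMap.ext fun f => Lp.ext ?_
  filter_upwards [coeFn_mulOp μ (c * d) f, coeFn_mulOp μ d f, coeFn_mulOp μ c (mulOp μ d f)]
    with x h1 h2 h3
  rw [h1, ContinuousLinearMap.mul_apply, h3, h2, ContinuousMap.mul_apply, mul_assoc]

lemma mulOp_one : mulOp μ 1 = 1 := by
  refine ContinuousLinearMap.ext fun f => Lp.ext ?_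
  filter_upwards [coeFn_mulOp μ 1 f] with x h1
  rw [h1]
  simp

/-- multiplication as a bounded linear map -/
noncomputable def mulL : C(unitInterval, ℂ) →L[ℂ] (Lp ℂ 2 μ →L[ℂ] Lp ℂ 2 μ) :=
  LinearMap.mkContinuous
    { toFun := mulOp μ
      map_add' := by
        intro c d
        refine ContinuousLinearMap.ext fun f => Lp.ext ?_
        filter_upwards [coeFn_mulOp μ (c + d) f, coeFn_mulOp μ c f, coeFn_mulOp μ d f,
          Lp.coeFn_add (mulOp μ c f) (mulOp μ d f)] with x h1 h2 h3 h4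
        rw [h1]
        change _ = (mulOp μ c f + mulOp μ d f : Lp ℂ 2 μ) x
        rw [h4, Pi.add_apply, h2, h3, ContinuousMap.add_apply, add_mul]
      map_smul' := by
        intro r c
        refine ContinuousLinearMap.ext fun f => Lp.ext ?_
        filter_upwards [coeFn_mulOp μ (r • c) f, coeFn_mulOp μ c f,
          Lp.coeFn_smul r (mulOp μ c f)] with x h1 h2 h4
        rw [h1, RingHom.id_apply]
        change _ = (r • mulOp μ c f : Lp ℂ 2 μ) x
        rw [h4, Pi.smul_apply, h2, ContinuousMap.smul_apply, smul_eq_mul, smul_eq_mul,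
          mul_assoc] } 1 (by
    intro c
    rw [one_mul]
    exact norm_mulOp_le μ c)

lemma mulL_apply (c : C(unitInterval, ℂ)) : mulL μ c = mulOp μ c := rfl

/-- the function `i x` -/
noncomputable def bb : C(unitInterval, ℂ) := ⟨fun x => I * ((x : ℝ) : ℂ), by fun_prop⟩

/-- the group `exp (i t x)` -/
noncomputable def GG (t : ℝ) : C(unitInterval, ℂ) := NormedSpace.exp (t • bb)

lemma GG_apply (t : ℝ) (x : unitInterval) : GG t x = cexp (I * ((t * x : ℝ) : ℂ)) := by
  have h := NormedSpace.map_exp (ContinuousMap.evalAlgHom ℂ ℂ x)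
    (ContinuousEvalConst.continuous_eval_const x) (t • bb)
  rw [← Complex.exp_eq_exp_ℂ] at h
  change GG t x = _ at h
  rw [h]
  congr 1
  change t • (I * ((x : ℝ) : ℂ)) = _
  rw [Complex.real_smul]
  push_cast
  ring

lemma norm_GG_le (t : ℝ) : ‖GG t‖ ≤ 1 := by
  rw [ContinuousMap.norm_le _ zero_le_one]
  intro x
  rw [GG_apply, mul_comm, Complex.norm_exp_ofReal_mul_I]

lemma hasDerivAt_GG (t : ℝ) : HasDerivAt GG (GG t * bb) t :=
  hasDerivAt_exp_smul_const bb t

lemma GG_zero : GG 0 = 1 := by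
  ext x
  rw [GG_apply]
  simp

lemma GG_add (s t : ℝ) : GG (s + t) = GG s * GG t := by
  ext x
  rw [ContinuousMap.mul_apply, GG_apply, GG_apply, GG_apply, ← Complex.exp_add]
  congr 1
  push_cast
  ring

/-- the function `1 / (1 - i x)` -/
noncomputable def cc : C(unitInterval, ℂ) := ⟨fun x => (1 - I * ((x : ℝ) : ℂ))⁻¹, by
  refine Continuous.inv₀ (by fun_prop) fun x => ?_
  intro h
  have := congrArg Complex.re h
  simp at this⟩

lemma ne_zero' (x : ℝ) : (1 - I * (x : ℂ)) ≠ 0 := by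
  intro h
  have := congrArg Complex.re h
  simp at this

lemma cc_mul : cc - bb * cc = 1 := by
  ext x
  simp only [ContinuousMap.sub_apply, ContinuousMap.mul_apply, ContinuousMap.one_apply]
  change (1 - I * ((x : ℝ) : ℂ))⁻¹ - (I * ((x : ℝ) : ℂ)) * (1 - I * ((x : ℝ) : ℂ))⁻¹ = 1
  rw [← one_sub_mul]
  exact mul_inv_cancel₀ (ne_zero' x)

/-- the semigroup -/
noncomputable def TT (t : ℝ) : Lp ℂ 2 μ →L[ℂ] Lp ℂ 2 μ := mulL μ (GG t)

lemma norm_TT_le (t : ℝ) : ‖TT μ t‖ ≤ 1 := (norm_mulOp_le μ _).trans (norm_GG_le t)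

lemma continuous_TT (z : Lp ℂ 2 μ) : Continuous fun t => TT μ t z := by
  have h1 : Continuous GG := continuous_iff_continuousAt.2 fun t => (hasDerivAt_GG t).continuousAt
  exact ((mulL μ).continuous.comp h1).clm_apply continuous_const

/-- the resolvent formula -/
lemma integral_TT (z : Lp ℂ 2 μ) :
    ∫ t in Ioi (0 : ℝ), ((Real.exp (-t) : ℝ) : ℂ) • TT μ t z = mulL μ cc z := by
  set P : C(unitInterval, ℂ) →L[ℝ] Lp ℂ 2 μ :=
    (((ContinuousLinearMap.apply ℂ (Lp ℂ 2 μ) z).comp (mulL μ)).restrictScalars ℝ) with hP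
  have hPa : ∀ a, P a = mulL μ a z := fun a => rfl
  have hd : ∀ t : ℝ, HasDerivAt (fun t : ℝ => -(Real.exp (-t) • P (GG t * cc)))
      (((Real.exp (-t) : ℝ) : ℂ) • TT μ t z) t := by
    intro t
    have h1 : HasDerivAt (fun t : ℝ => P (GG t * cc)) (P (GG t * bb * cc)) t :=
      P.hasFDerivAt.comp_hasDerivAt t ((hasDerivAt_GG t).mul_const cc)
    have h2 : HasDerivAt (fun t : ℝ => Real.exp (-t)) (-Real.exp (-t)) t := by
      have := (hasDerivAt_neg t).exp
      simpa using this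
    have h3 := (h2.smul h1).neg
    have h4 : -(Real.exp (-t) • P (GG t * bb * cc) + -Real.exp (-t) • P (GG t * cc)) =
        ((Real.exp (-t) : ℝ) : ℂ) • TT μ t z := by
      rw [neg_add, neg_smul, neg_neg, ← smul_neg, add_comm, ← smul_add, ← sub_eq_add_neg,
        ← map_sub, mul_assoc, ← mul_sub, cc_mul, mul_one]
      exact (Complex.coe_smul _ _).symm
    rw [h4] at h3
    exact h3
  have hint : IntegrableOn (fun t : ℝ => ((Real.exp (-t) : ℝ) : ℂ) • TT μ t z) (Ioi 0) := by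
    have h1 : IntegrableOn (fun t : ℝ => Real.exp (-t) * ‖z‖) (Ioi 0) :=
      (integrableOn_exp_neg_Ioi 0).mul_const _
    refine Integrable.mono' h1 ?_ ?_
    · have := continuous_TT μ z
      exact (by fun_prop : Continuous fun t : ℝ =>
        ((Real.exp (-t) : ℝ) : ℂ) • TT μ t z).aestronglyMeasurable
    · refine Eventually.of_forall fun t => ?_
      rw [norm_smul, Complex.norm_real, Real.norm_eq_abs, abs_of_pos (Real.exp_pos _)]
      gcongr
      exact (TT μ t).le_of_opNorm_le (norm_TT_le μ t) z |>.trans (by rw [one_mul])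
  have hlim : Tendsto (fun t : ℝ => -(Real.exp (-t) • P (GG t * cc))) atTop (𝓝 0) := by
    rw [tendsto_zero_iff_norm_tendsto_zero]
    have h1 : Tendsto (fun t : ℝ => Real.exp (-t) * (‖P‖ * ‖cc‖)) atTop (𝓝 0) := by
      have := (Real.tendsto_exp_neg_atTop_nhds_zero).mul_const (‖P‖ * ‖cc‖)
      rwa [zero_mul] at this
    refine squeeze_zero (fun t => norm_nonneg _) (fun t => ?_) h1
    rw [norm_neg, norm_smul, Real.norm_eq_abs, abs_of_pos (Real.exp_pos _)]
    gcongr
    refine (P.le_opNorm _).trans ?_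
    gcongr
    refine (norm_mul_le _ _).trans ?_
    exact mul_le_of_le_one_left (norm_nonneg _) (norm_GG_le t)
  rw [integral_Ioi_of_hasDerivAt_of_tendsto' (fun t _ => hd t) hint hlim]
  rw [GG_zero, one_mul, hPa]
  simp

/-- the symbol of the cogenerator -/
noncomputable def vv : C(unitInterval, ℂ) := 1 - (2 : ℂ) • cc

lemma vv_apply (x : unitInterval) : vv x = - cexp (I * ((φ x : ℝ) : ℂ)) := by
  have h1 : cexp (I * ((φ x : ℝ) : ℂ)) = (1 + I * ((x : ℝ) : ℂ)) / (1 - I * ((x : ℝ) : ℂ)) := by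
    set y : ℝ := (x : ℝ) with hy
    have h2 : cexp (I * ((φ y : ℝ) : ℂ)) = (cexp ((Real.arctan y : ℝ) * I)) ^ 2 := by
      rw [← Complex.exp_nat_mul]
      congr 1
      unfold φ
      push_cast
      ring
    rw [h2, Complex.exp_mul_I, ← Complex.ofReal_cos, ← Complex.ofReal_sin, Real.cos_arctan,
      Real.sin_arctan]
    have h3 : (0 : ℝ) < 1 + y ^ 2 := by positivity
    have h4 : ((Real.sqrt (1 + y ^ 2) : ℝ) : ℂ) ≠ 0 := by
      exact_mod_cast (Real.sqrt_pos.2 h3).ne'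
    have h5 : ((Real.sqrt (1 + y ^ 2) : ℝ) : ℂ) ^ 2 = 1 + (y : ℂ) ^ 2 := by
      rw [← Complex.ofReal_pow, Real.sq_sqrt h3.le]
      push_cast
      ring
    have h6 : (1 - I * (y : ℂ)) ≠ 0 := ne_zero' y
    have h7 : (1 : ℂ) + (y : ℂ) ^ 2 ≠ 0 := by
      rw [← h5]
      exact pow_ne_zero _ h4
    push_cast
    have h8 : (1 / ((Real.sqrt (1 + y ^ 2) : ℝ) : ℂ) + (y : ℂ) / ((Real.sqrt (1 + y ^ 2) : ℝ) : ℂ) * I) ^ 2
        = (1 + I * y) ^ 2 / (1 + (y : ℂ) ^ 2) := by
      rw [← h5]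
      field_simp
    rw [h8, div_eq_div_iff h7 h6]
    have hI : I ^ 2 = -1 := Complex.I_sq
    linear_combination (-(1 + I * (y : ℂ)) * (y : ℂ) ^ 2) * hI
  rw [h1]
  change (1 : ℂ) - 2 * (1 - I * ((x : ℝ) : ℂ))⁻¹ = _
  have := ne_zero' x
  field_simp
  ring

lemma vv_pow (n : ℕ) : vv ^ n = ((-1 : ℂ) ^ n) • oc n := by
  ext x
  rw [ContinuousMap.pow_apply, vv_apply, ContinuousMap.smul_apply, smul_eq_mul, neg_pow]
  congr 1
  change _ = osc n 0 x
  rw [osc, ← Complex.exp_nat_mul]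
  congr 1
  push_cast
  ring

lemma norm_oc_le (n : ℕ) : ‖oc n‖ ≤ 1 := by
  rw [ContinuousMap.norm_le _ zero_le_one]
  intro x
  exact (norm_osc n 0 x).le

lemma norm_vv_pow_le (n : ℕ) : ‖vv ^ n‖ ≤ 1 := by
  rw [vv_pow, norm_smul, norm_pow, norm_neg, norm_one, one_pow, one_mul]
  exact norm_oc_le n

lemma cog_iterate (n : ℕ) (z : Lp ℂ 2 μ) :
    ((fun z : Lp ℂ 2 μ => z - (2 : ℂ) •
      ∫ t in Ioi (0 : ℝ), ((Real.exp (-t) : ℝ) : ℂ) • TT μ t z)^[n] z) = mulL μ (vv ^ n) z := by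
  have h : (fun z : Lp ℂ 2 μ => z - (2 : ℂ) •
      ∫ t in Ioi (0 : ℝ), ((Real.exp (-t) : ℝ) : ℂ) • TT μ t z) = fun z => mulL μ vv z := by
    funext z
    rw [integral_TT, vv, map_sub, map_smul]
    simp only [mulL_apply, mulOp_one]
    rfl
  rw [h]
  induction n with
  | zero => simp [mulL_apply, mulOp_one]
  | succ n ih =>
    rw [Function.iterate_succ_apply', ih, pow_succ']
    simp only [mulL_apply, mulOp_mul]
    rfl

lemma inner_toLp (c : C(unitInterval, ℂ)) (f g : C(unitInterval, ℂ)) :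
    inner ℂ (mulL μ c (ContinuousMap.toLp 2 μ ℂ f)) (ContinuousMap.toLp 2 μ ℂ g) =
      (starRingEnd ℂ) (∫ x, ((f * star g) * c) x ∂μ) := by
  rw [L2.inner_def, ← integral_conj]
  refine integral_congr_ae ?_
  filter_upwards [coeFn_mulOp μ c (ContinuousMap.toLp 2 μ ℂ f),
    ContinuousMap.coeFn_toLp (p := 2) (𝕜 := ℂ) μ f,
    ContinuousMap.coeFn_toLp (p := 2) (𝕜 := ℂ) μ g] with x h1 h2 h3
  rw [mulL_apply, h1, h2, h3]
  simp only [ContinuousMap.mul_apply, ContinuousMap.star_apply, RCLike.inner_apply, map_mul]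
  simp only [RCLike.star_def, Complex.conj_conj]
  ring

/-- weak stability passes from a dense set to the whole space -/
lemma weak_of_dense {H : Type*} [NormedAddCommGroup H] [InnerProductSpace ℂ H]
    (S : ℕ → H →L[ℂ] H) (hS : ∀ n, ‖S n‖ ≤ 1) {D : Type*} (e : D → H) (hD : DenseRange e)
    (h : ∀ f g : D, Tendsto (fun n => inner ℂ (S n (e f)) (e g)) atTop (𝓝 0)) (x y : H) :
    Tendsto (fun n => inner ℂ (S n x) y) atTop (𝓝 0) := by
  rw [tendsto_zero_iff_norm_tendsto_zero, Metric.tendsto_atTop]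
  intro ε hε
  obtain ⟨f, hf⟩ := hD.exists_dist_lt x (ε := ε / (3 * (‖y‖ + 1))) (by positivity)
  obtain ⟨g, hg⟩ := hD.exists_dist_lt y (ε := ε / (3 * (‖e f‖ + 1))) (by positivity)
  have h1 := h f g
  rw [tendsto_zero_iff_norm_tendsto_zero, Metric.tendsto_atTop] at h1
  obtain ⟨N, hN⟩ := h1 (ε / 3) (by positivity)
  refine ⟨N, fun n hn => ?_⟩
  have h2 := hN n hn
  rw [Real.dist_eq, sub_zero, abs_of_nonneg (norm_nonneg _)] at h2 ⊢
  rw [dist_eq_norm] at hf hg
  have e1 : (inner ℂ (S n x) y : ℂ) = inner ℂ (S n (x - e f)) y + inner ℂ (S n (e f)) (y - e g) +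
      inner ℂ (S n (e f)) (e g) := by
    rw [map_sub, inner_sub_left, inner_sub_right]
    ring
  have b : ∀ z : H, ‖S n z‖ ≤ ‖z‖ := fun z =>
    ((S n).le_of_opNorm_le (hS n) z).trans (by rw [one_mul])
  have h3 : ‖(inner ℂ (S n (x - e f)) y : ℂ)‖ ≤ ε / 3 := by
    refine (norm_inner_le_norm _ _).trans ?_
    calc ‖S n (x - e f)‖ * ‖y‖ ≤ (ε / (3 * (‖y‖ + 1))) * (‖y‖ + 1) := by
          gcongr
          · exact (b _).trans hf.le
          · linarith
      _ = ε / 3 := by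
          have : ‖y‖ + 1 ≠ 0 := by positivity
          field_simp
  have h4 : ‖(inner ℂ (S n (e f)) (y - e g) : ℂ)‖ ≤ ε / 3 := by
    refine (norm_inner_le_norm _ _).trans ?_
    calc ‖S n (e f)‖ * ‖y - e g‖ ≤ (‖e f‖ + 1) * (ε / (3 * (‖e f‖ + 1))) := by
          gcongr
          exact (b _).trans (by linarith)
      _ = ε / 3 := by
          have : ‖e f‖ + 1 ≠ 0 := by positivity
          field_simp
  rw [e1]
  calc _ ≤ ‖(inner ℂ (S n (x - e f)) y : ℂ)‖ + ‖(inner ℂ (S n (e f)) (y - e g) : ℂ)‖ +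
        ‖(inner ℂ (S n (e f)) (e g) : ℂ)‖ := norm_add₃_le
    _ < ε := by linarith

end ops

end Pool.Agent.Zk71.Cog
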