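import Pool.Agent.Zk71.CogD

set_option autoImplicit false
open Filter Topology MeasureTheory

namespace Pool.Agent.Zk71.Cog

/-- the cogenerator is weakly stable -/
lemma cog_stable (μ : Measure unitInterval) [IsProbabilityMeasure μ]
    (hosc : ∀ F : C(unitInterval, ℂ), Tendsto (fun n : ℕ => ∫ x, (F * oc n) x ∂μ) atTop (𝓝 0))
    (x y : Lp ℂ 2 μ) :
    Tendsto (fun n : ℕ => inner ℂ ((fun z : Lp ℂ 2 μ => z - (2 : ℂ) •
      ∫ t in Set.Ioi (0 : ℝ), ((Real.exp (-t) : ℝ) : ℂ) • TT μ t z)^[n] x) y) atTop (𝓝 0) := by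
  simp_rw [cog_iterate]
  refine weak_of_dense (fun n => mulL μ (vv ^ n))
    (fun n => (norm_mulOp_le μ _).trans (norm_vv_pow_le n))
    (fun f : C(unitInterval, ℂ) => ContinuousMap.toLp 2 μ ℂ f)
    (ContinuousMap.toLp_denseRange ℂ μ ℂ (by norm_num)) ?_ x y
  intro f g
  simp_rw [inner_toLp]
  have h1 := hosc (f * star g)
  rw [tendsto_zero_iff_norm_tendsto_zero] at h1 ⊢
  refine h1.congr fun n => ?_
  rw [RCLike.norm_conj]
  have e : ∫ x, ((f * star g) * vv ^ n) x ∂μ =
      (-1 : ℂ) ^ n * ∫ x, ((f * star g) * oc n) x ∂μ := by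
    rw [← integral_const_mul]
    refine integral_congr_ae (Eventually.of_forall fun x => ?_)
    simp only [vv_pow, ContinuousMap.mul_apply, ContinuousMap.smul_apply, smul_eq_mul]
    ring
  rw [e, norm_mul, norm_pow, norm_neg, norm_one, one_pow, one_mul]

/-- There is a contraction semigroup (in fact a unitary group with a bounded generator) on a Hilbert
space which is not weakly stable although its cogenerator is weakly stable. -/
theorem not_equiv :
    ∃ (H : Type) (_ : NormedAddCommGroup H) (_ : InnerProductSpace ℂ H) (_ : CompleteSpace H)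
      (T : ℝ → H →L[ℂ] H),
      T 0 = 1 ∧
      (∀ s t : ℝ, 0 ≤ s → 0 ≤ t → T (s + t) = T s * T t) ∧
      (∀ x : H, ContinuousOn (fun t : ℝ => T t x) (Set.Ici 0)) ∧
      (∀ t : ℝ, 0 ≤ t → ‖T t‖ ≤ 1) ∧
      ¬ (∀ x y : H, Tendsto (fun t : ℝ => inner ℂ (T t x) y) atTop (𝓝 0)) ∧
        (∀ x y : H, Tendsto (fun n : ℕ =>
            inner ℂ ((fun z : H => z - (2 : ℂ) •
              ∫ t in Set.Ioi (0 : ℝ), ((Real.exp (-t) : ℝ) : ℂ) • T t z)^[n] x) y)
            atTop (𝓝 0)) := by
  obtain ⟨μ, hμ, hosc, hcos⟩ := exists_measure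
  refine ⟨Lp ℂ 2 μ, inferInstance, inferInstance, inferInstance, TT μ, ?_, ?_, ?_, ?_, ?_, ?_⟩
  · change mulOp μ (GG 0) = 1
    rw [GG_zero, mulOp_one]
  · intro s t _ _
    change mulOp μ (GG (s + t)) = mulOp μ (GG s) * mulOp μ (GG t)
    rw [GG_add, mulOp_mul]
  · exact fun x => (continuous_TT μ x).continuousOn
  · exact fun t _ => norm_TT_le μ t
  · intro hT'
    have hT := hT' (ContinuousMap.toLp 2 μ ℂ (1 : C(unitInterval, ℂ)))
      (ContinuousMap.toLp 2 μ ℂ (1 : C(unitInterval, ℂ)))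
    rw [tendsto_zero_iff_norm_tendsto_zero] at hT
    have hev := hT.eventually_lt_const (show (0 : ℝ) < 1 / 8 by norm_num)
    obtain ⟨B, hB⟩ := eventually_atTop.1 hev
    obtain ⟨j, hj⟩ := exists_nat_ge B
    obtain ⟨t, ht, ht2⟩ := hcos j
    have h3 := hB t (hj.trans ht)
    have e : inner ℂ (TT μ t (ContinuousMap.toLp 2 μ ℂ (1 : C(unitInterval, ℂ))))
        (ContinuousMap.toLp 2 μ ℂ (1 : C(unitInterval, ℂ))) =
          (starRingEnd ℂ) (∫ x, GG t x ∂μ) := by
      have := inner_toLp μ (GG t) 1 1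
      rw [star_one, one_mul, one_mul] at this
      exact this
    have e2 : (∫ x, GG t x ∂μ).re = (∫ x, cosc t x ∂μ).re := by
      have i1 : Integrable (fun x => GG t x) μ :=
        (BoundedContinuousFunction.mkOfCompact (GG t)).integrable _
      have i2 : Integrable (fun x => cosc t x) μ :=
        (BoundedContinuousFunction.mkOfCompact (cosc t)).integrable _
      have r1 := integral_re i1
      have r2 := integral_re i2
      simp only [RCLike.re_to_complex] at r1 r2
      rw [← r1, ← r2]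
      refine integral_congr_ae (Eventually.of_forall fun x => ?_)
      simp only
      rw [GG_apply]
      change _ = (((Real.cos (t * x) : ℝ) : ℂ)).re
      rw [Complex.ofReal_re, mul_comm, Complex.exp_ofReal_mul_I_re]
    rw [e, RCLike.norm_conj] at h3
    have h4 := Complex.re_le_norm (∫ x, GG t x ∂μ)
    rw [e2] at h4
    linarith
  · exact cog_stable μ hosc

end Pool.Agent.Zk71.Cog
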